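import Pool.Agent.CB.Stm4

/-!
# Project CB: the piece L-CNT (counting of the self-stresses)
-/

set_option autoImplicit false

namespace Pool.Agent.CB.CNT

open Finset Module

/-- `Z u S = z S (u S)` -/
def Z {X V : Type} [AddCommGroup V] [Module ℚ V] (z : X → V →ₗ[ℚ] ℚ) : (X → V) →ₗ[ℚ] (X → ℚ) where
  toFun u S := z S (u S)
  map_add' u v := by funext S; simp
  map_smul' c u := by funext S; simp

theorem finrank_kerZ {X V : Type} [Fintype X] [AddCommGroup V] [Module ℚ V] [FiniteDimensional ℚ V]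
    (z : X → V →ₗ[ℚ] ℚ) (hz : ∀ S, z S ≠ 0) :
    finrank ℚ (LinearMap.ker (Z z)) = Fintype.card X * (finrank ℚ V - 1) := by
  have hsurj : Function.Surjective (Z z) := by
    intro g
    have h : ∀ S, ∃ x, z S x = g S := by
      intro S
      obtain ⟨y, hy⟩ : ∃ y, z S y ≠ 0 := by
        by_contra hcon
        push Not at hcon
        exact hz S (LinearMap.ext hcon)
      exact ⟨(g S / z S y) • y, by rw [map_smul, smul_eq_mul, div_mul_cancel₀ _ hy]⟩
    choose u hu using h
    exact ⟨u, funext hu⟩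
  have h1 := LinearMap.finrank_range_add_finrank_ker (Z z)
  rw [LinearMap.range_eq_top.2 hsurj, finrank_top, Module.finrank_fintype_fun_eq_card,
    Module.finrank_pi_fintype, Finset.sum_const, Finset.card_univ, smul_eq_mul] at h1
  rcases Nat.eq_zero_or_pos (Fintype.card X) with h0 | h0
  · rw [h0] at h1 ⊢
    simpa using h1
  · rw [Nat.mul_sub, mul_one]
    omega

open Classical in
/-- `Φ u S T = z T (u S) + z S (u T)` on the pairs of `N` -/
noncomputable def Phi {X V : Type} [AddCommGroup V] [Module ℚ V] (z : X → V →ₗ[ℚ] ℚ) (N : X → X → Prop) :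
    (X → V) →ₗ[ℚ] (X → X → ℚ) where
  toFun u S T := if N S T then z T (u S) + z S (u T) else 0
  map_add' u v := by
    funext S T
    simp only [Pi.add_apply, map_add]
    split_ifs <;> ring
  map_smul' c u := by
    funext S T
    simp only [Pi.smul_apply, map_smul, smul_eq_mul, RingHom.id_apply]
    split_ifs <;> ring

/-- the scalar product -/
def Bl (X : Type) [Fintype X] : (X → X → ℚ) →ₗ[ℚ] Dual ℚ (X → X → ℚ) :=
  LinearMap.mk₂ ℚ (fun w y => ∑ S, ∑ T, w S T * y S T)
    (fun a b c => by simp only [Pi.add_apply, add_mul, Finset.sum_add_distrib])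
    (fun r a c => by simp only [Pi.smul_apply, smul_eq_mul, mul_assoc, Finset.mul_sum])
    (fun a b c => by simp only [Pi.add_apply, mul_add, Finset.sum_add_distrib])
    (fun r a c => by simp only [Pi.smul_apply, smul_eq_mul, mul_left_comm, Finset.mul_sum])

theorem Bl_apply {X : Type} [Fintype X] (w y : X → X → ℚ) : Bl X w y = ∑ S, ∑ T, w S T * y S T := rfl

theorem Bl_self {X : Type} [Fintype X] (w : X → X → ℚ) (h : Bl X w w = 0) : w = 0 := by
  rw [Bl_apply] at h
  have h1 : ∀ S ∈ (univ : Finset X), 0 ≤ ∑ T, w S T * w S T := fun S _ =>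
    Finset.sum_nonneg fun T _ => mul_self_nonneg _
  rw [Finset.sum_eq_zero_iff_of_nonneg h1] at h
  funext S T
  have h2 := h S (mem_univ _)
  rw [Finset.sum_eq_zero_iff_of_nonneg fun T _ => mul_self_nonneg _] at h2
  exact mul_self_eq_zero.1 (h2 T (mem_univ _))

/-- the orthogonal complement of `R` in `Y0` -/
theorem orth {X : Type} [Fintype X] (Y0 R Y : Submodule ℚ (X → X → ℚ)) (hR : R ≤ Y0)
    (hY : ∀ w, w ∈ Y ↔ w ∈ Y0 ∧ ∀ y ∈ R, Bl X w y = 0) :
    finrank ℚ Y + finrank ℚ R = finrank ℚ Y0 := by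
  set Ψ : Y0 →ₗ[ℚ] Dual ℚ R := (R.subtype.dualMap.comp (Bl X)).comp Y0.subtype with hΨ
  set Ψ' : R →ₗ[ℚ] Dual ℚ R := (R.subtype.dualMap.comp (Bl X)).comp R.subtype with hΨ'
  have hinj : Function.Injective Ψ' := by
    rw [← LinearMap.ker_eq_bot, LinearMap.ker_eq_bot']
    intro r hr
    have h1 : Bl X r.1 r.1 = 0 := by
      have := LinearMap.congr_fun hr r
      simpa [hΨ'] using this
    exact Subtype.ext (Bl_self _ h1)
  have hsurj' : Function.Surjective Ψ' :=
    (LinearMap.injective_iff_surjective_of_finrank_eq_finrank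
      (Subspace.dual_finrank_eq (K := ℚ) (V := R)).symm).1 hinj
  have hsurj : Function.Surjective Ψ := by
    intro φ
    obtain ⟨r, hr⟩ := hsurj' φ
    exact ⟨⟨r.1, hR r.2⟩, by rw [← hr]; rfl⟩
  have h1 := LinearMap.finrank_range_add_finrank_ker Ψ
  rw [LinearMap.range_eq_top.2 hsurj, finrank_top, Subspace.dual_finrank_eq] at h1
  have hle : Y ≤ Y0 := fun w hw => ((hY w).1 hw).1
  have hker : LinearMap.ker Ψ = Y.comap Y0.subtype := by
    ext w
    rw [LinearMap.mem_ker, Submodule.mem_comap, hY]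
    constructor
    · intro h
      refine ⟨w.2, fun y hy => ?_⟩
      have := LinearMap.congr_fun h ⟨y, hy⟩
      simpa [hΨ] using this
    · intro h
      ext y
      have := h.2 y.1 y.2
      simpa [hΨ] using this
  rw [hker, (Submodule.comapSubtypeEquivOfLe hle).finrank_eq] at h1
  omega

end CNT

open Finset Module CNT

theorem t_CNT (h : L_SYM) : L_CNT := by
  classical
  intro X V _ _ _ _ z N hz hsym hirr K Y hK hY
  obtain ⟨Y0, hY0, hcard⟩ := h X N hsym hirr
  have hX0 := finrank_kerZ z hz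
  set X0 := LinearMap.ker (Z z) with hX0def
  have hmem0 : ∀ u, u ∈ X0 ↔ ∀ S, z S (u S) = 0 := fun u => by
    rw [hX0def, LinearMap.mem_ker]
    exact ⟨fun h S => congrFun h S, fun h => funext h⟩
  set Φ0 : X0 →ₗ[ℚ] (X → X → ℚ) := (Phi z N).domRestrict X0 with hΦ0
  have hPhi : ∀ (u : X → V) (S T : X), Phi z N u S T = if N S T then z T (u S) + z S (u T) else 0 :=
    fun u S T => by
      change (if N S T then z T (u S) + z S (u T) else 0) = _
      congr
  have hrange : LinearMap.range Φ0 ≤ Y0 := by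
    rintro w ⟨u, rfl⟩
    rw [hY0]
    constructor
    · intro S T
      change Phi z N u.1 S T = Phi z N u.1 T S
      rw [hPhi, hPhi]
      by_cases h1 : N S T
      · rw [if_pos h1, if_pos (hsym _ _ h1), add_comm]
      · rw [if_neg h1, if_neg fun h2 => h1 (hsym _ _ h2)]
    · intro S T h1
      change Phi z N u.1 S T = 0
      rw [hPhi, if_neg h1]
  have hK0 : K ≤ X0 := fun u hu => (hmem0 u).2 ((hK u).1 hu).1
  have hker : LinearMap.ker Φ0 = K.comap X0.subtype := by
    ext u
    rw [LinearMap.mem_ker, Submodule.mem_comap, hK]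
    constructor
    · intro h1
      refine ⟨(hmem0 _).1 u.2, fun S T h2 => ?_⟩
      have h3 : Phi z N u.1 S T = 0 := congrFun (congrFun h1 S) T
      rw [hPhi, if_pos h2] at h3
      exact h3
    · intro h1
      funext S T
      change Phi z N u.1 S T = 0
      rw [hPhi]
      by_cases h2 : N S T
      · rw [if_pos h2]; exact h1.2 S T h2
      · rw [if_neg h2]
  have h2 := LinearMap.finrank_range_add_finrank_ker Φ0
  rw [hker, (Submodule.comapSubtypeEquivOfLe hK0).finrank_eq, hX0] at h2
  -- the scalar product with the image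
  have hB : ∀ w, w ∈ Y0 → ∀ u : X → V, Bl X w (Phi z N u) = 2 * ∑ S, ∑ T, w S T * z T (u S) := by
    intro w hw u
    rw [hY0] at hw
    rw [Bl_apply]
    have h3 : ∀ S T, w S T * Phi z N u S T = w S T * z T (u S) + w S T * z S (u T) := by
      intro S T
      rw [hPhi]
      by_cases h4 : N S T
      · rw [if_pos h4]; ring
      · rw [if_neg h4, hw.2 S T h4]; ring
    simp only [h3, Finset.sum_add_distrib]
    have h5 : ∑ S, ∑ T, w S T * z S (u T) = ∑ S, ∑ T, w S T * z T (u S) := by
      rw [Finset.sum_comm]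
      refine Finset.sum_congr rfl fun S _ => Finset.sum_congr rfl fun T _ => ?_
      rw [hw.1 T S]
    rw [h5]; ring
  have h3 := orth Y0 (LinearMap.range Φ0) Y hrange (by
    intro w
    rw [hY, hY0]
    constructor
    · rintro ⟨h4, h5, h6⟩
      refine ⟨⟨h4, h5⟩, ?_⟩
      rintro y ⟨u, rfl⟩
      change Bl X w (Phi z N u.1) = 0
      rw [hB w ((hY0 w).2 ⟨h4, h5⟩)]
      rw [Finset.sum_eq_zero fun S _ => h6 S _ ((hmem0 _).1 u.2 S), mul_zero]
    · rintro ⟨⟨h4, h5⟩, h6⟩
      refine ⟨h4, h5, fun S x hx => ?_⟩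
      have h7 : Pi.single S x ∈ X0 := by
        rw [hmem0]
        intro T
        by_cases h8 : T = S
        · subst h8; rw [Pi.single_eq_same]; exact hx
        · rw [Pi.single_eq_of_ne h8, map_zero]
      have h8 := h6 (Phi z N (Pi.single S x)) ⟨⟨_, h7⟩, rfl⟩
      rw [hB w ((hY0 w).2 ⟨h4, h5⟩)] at h8
      have h9 : ∑ S', ∑ T, w S' T * z T ((Pi.single S x : X → V) S') = ∑ T, w S T * z T x := by
        rw [Finset.sum_eq_single S]
        · simp only [Pi.single_eq_same]
        · intro T _ h10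
          simp only [Pi.single_eq_of_ne h10, map_zero, mul_zero, Finset.sum_const_zero]
        · intro h10; exact absurd (mem_univ _) h10
      rw [h9] at h8
      linarith)
  omega

end Pool.Agent.CB
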