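import Pool.Agent.CB.Stm4

/-!
# Project CB, part 2: the Chow-Betti numbers in dimension `n - 1` and above (`D_CON1`)
-/

set_option autoImplicit false

namespace Pool.Agent.CB

open Finset Module

theorem t_CON1 (h1 : S_DDIM) (h2 : D_FCT) : D_CON1 := by
  intro n k q hq
  have hn : 4 ≤ n := by
    obtain ⟨h2k, hkn, -, -⟩ := hq
    omega
  have hdim : ∀ T, dim q T ≤ n - 1 := by
    intro T
    have := Submodule.finrank_le (lin q T)
    rwa [Module.finrank_fin_fun] at this
  obtain ⟨-, -, hG⟩ := h2 n k q hq
  refine ⟨?_, fun j hj => ?_⟩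
  · have hu : {r : FaceOf q (n - 1) →₀ ℚ | IsRelation q (n - 1) r} = ∅ := by
      ext r
      simp only [Set.mem_setOf_eq, Set.mem_empty_iff_false, iff_false]
      rintro ⟨G, -, hd, -⟩
      have := hdim G
      omega
    unfold chowBetti
    rw [hu, Submodule.span_empty]
    letI : Unique (FaceOf q (n - 1)) :=
      { default := ⟨univ, (hG univ).2 rfl⟩
        uniq := fun T => Subtype.ext ((hG T.1).1 T.2) }
    rw [(Submodule.quotEquivOfEqBot (⊥ : Submodule ℚ (FaceOf q (n - 1) →₀ ℚ)) rfl).finrank_eq,
      Module.finrank_finsupp_self]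
    simp
  · haveI : IsEmpty (FaceOf q j) := ⟨fun T => by
      have e1 := hdim T.1
      have e2 := T.2.2
      omega⟩
    unfold chowBetti
    exact Module.finrank_zero_of_subsingleton

end Pool.Agent.CB

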