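import Pool.Agent.CB.Stm4

/-!
# Project CB, piece CTW: the Chow-Betti number of the facets
-/

set_option autoImplicit false

namespace Pool.Agent.CB

open Finset Module

theorem t_CTW (h1 : S_DWTS) (h2 : D_FCT) (h3 : D_SPZ) (h4 : S_DEXN) : D_CTW := by
  classical
  intro n k q z c hq hz
  obtain ⟨hf1, hf2, hf3⟩ := h2 n k q hq
  have hk2 : 2 ≤ k := hq.1
  have hkn : k + 2 ≤ n := hq.2.1
  have htop : lin q univ = ⊤ := hq.2.2.1
  obtain ⟨huface, hudim⟩ := (hf3 univ).2 rfl
  -- the bijection between the `k`-sets and the facets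
  have hE : ∀ S : Sub k n, IsFace q (E S.1) ∧ dim q (E S.1) = n - 2 := fun S => (hf1 (E S.1)).2 ⟨S, rfl⟩
  have hbij : Function.Bijective (fun S : Sub k n => (⟨E S.1, hE S⟩ : FaceOf q (n - 2))) := by
    constructor
    · intro S T h
      have h' : E S.1 = E T.1 := congrArg Subtype.val h
      exact Subtype.ext (hf2 _ _ h')
    · rintro ⟨G, hG⟩
      obtain ⟨S, hS⟩ := (hf1 G).1 hG
      exact ⟨S, Subtype.ext hS.symm⟩
  obtain ⟨e, he⟩ : ∃ e : Sub k n ≃ FaceOf q (n - 2), ∀ S, (e S).1 = E S.1 := ⟨Equiv.ofBijective _ hbij, fun S => rfl⟩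
  have he' : ∀ F, F.1 = E (e.symm F).1 := fun F => by rw [← he, Equiv.apply_symm_apply]
  letI : Fintype (FaceOf q (n - 2)) := Fintype.ofEquiv _ e
  obtain ⟨W, hW, hcb⟩ := h1 (Fin n × Bool) (n - 1) q (n - 2)
  -- `z S` is the normal of `E S`
  have hN : ∀ S : Sub k n, Normal q (E S.1) univ (z S.1) := by
    intro S
    obtain ⟨hp, hi⟩ := hz S.1 S.2
    refine ⟨?_, ?_, ?_, ?_⟩
    · intro x hx
      have hle : lin q (E S.1) ≤ LinearMap.ker (z S.1) := by
        unfold lin
        rw [Submodule.span_le]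
        rintro _ ⟨i, hi1, j, hj1, rfl⟩
        rw [SetLike.mem_coe, LinearMap.mem_ker, map_sub]
        have a1 := (hi i).1 hi1
        have a2 := (hi j).1 hj1
        linarith
      exact hle hx
    · intro i _ j hj
      rw [map_sub]
      have a2 := (hi j).1 hj
      by_cases hiE : i ∈ E S.1
      · have a1 := (hi i).1 hiE
        linarith
      · have a1 := (hi i).2 hiE
        linarith
    · intro x _ hx
      exact hp.1 x hx
    · obtain ⟨x, hx1, hx2⟩ := hp.2
      exact ⟨x, by rw [htop]; trivial, hx1, hx2⟩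
  have hU : ∀ (S : Sub k n) (ν : (Fin (n - 1) → ℚ) →ₗ[ℚ] ℚ), Normal q (E S.1) univ ν → ∀ x, ν x = z S.1 x := by
    intro S ν hν x
    obtain ⟨-, h5, -⟩ := h4 (Fin n × Bool) (n - 1) q (E S.1) univ (hE S).1 huface (subset_univ _)
      (by rw [(hE S).2, hudim]; omega)
    exact h5 ν (z S.1) hν (hN S) x (by rw [htop]; trivial)
  -- the linear map
  obtain ⟨L, hL⟩ : ∃ L : (FaceOf q (n - 2) → ℚ) →ₗ[ℚ] ((Fin (n - 1) → ℚ) →ₗ[ℚ] ℚ),
      ∀ w, L w = ∑ S : Sub k n, w (e S) • z S.1 :=
    ⟨{ toFun := fun w => ∑ S : Sub k n, w (e S) • z S.1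
       map_add' := fun w w' => by simp [add_smul, Finset.sum_add_distrib]
       map_smul' := fun a w => by simp [mul_smul, Finset.smul_sum] }, fun w => rfl⟩
  have hsum : ∀ (w : FaceOf q (n - 2) → ℚ) (r : FaceOf q (n - 2) →₀ ℚ) (u : Fin (n - 1) → ℚ),
      (∀ F, r F = z (e.symm F).1 u) → r.sum (fun F a => a * w F) = L w u := by
    intro w r u hr
    rw [Finsupp.sum_fintype _ _ (fun F => zero_mul _), hL, LinearMap.sum_apply, ← Equiv.sum_comp e]
    refine Finset.sum_congr rfl fun S _ => ?_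
    rw [hr, Equiv.symm_apply_apply, LinearMap.smul_apply, smul_eq_mul, mul_comm]
  have hWL : W = LinearMap.ker L := by
    ext w
    rw [hW, LinearMap.mem_ker]
    constructor
    · intro h
      refine (Pi.basisFun ℚ (Fin (n - 1))).ext fun i => ?_
      rw [Pi.basisFun_apply, LinearMap.zero_apply]
      obtain ⟨u, hu⟩ : ∃ u : Fin (n - 1) → ℚ, u = Pi.single i 1 := ⟨_, rfl⟩
      rw [← hu]
      have hint : Integral u := by
        intro j
        by_cases hj : j = i
        · exact ⟨1, by rw [hu, hj]; simp⟩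
        · exact ⟨0, by rw [hu, Pi.single_eq_of_ne hj]; simp⟩
      rw [← hsum w (Finsupp.equivFunOnFinite.symm fun F => z (e.symm F).1 u) u (fun F => rfl)]
      apply h
      refine ⟨univ, huface, by rw [hudim]; omega, u, by rw [htop]; trivial, hint, fun F => ⟨fun hF => absurd (subset_univ _) hF,
        fun _ => ⟨z (e.symm F).1, ?_, rfl⟩⟩⟩
      rw [he' F]
      exact hN _
    · rintro h r ⟨G, hG1, hG2, u, -, -, hF⟩
      have hG : G = univ := (hf3 G).1 ⟨hG1, by rw [hG2]; omega⟩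
      subst hG
      rw [hsum w r u, h, LinearMap.zero_apply]
      intro F
      obtain ⟨ν, hν, hr⟩ := (hF F).2 (subset_univ _)
      rw [he' F] at hν
      rw [hr]
      exact hU _ ν hν u
  have hrange : LinearMap.range L = ⊤ := by
    rw [eq_top_iff]
    intro f _
    have h5 := (h3 n k q z c hq hz).1 (f, 0)
    have hle : Submodule.span ℚ {x : ((Fin (n - 1) → ℚ) →ₗ[ℚ] ℚ) × ℚ | ∃ S : Finset (Fin n), S.card = k ∧ x = (z S, c S)} ≤
        (LinearMap.range L).comap (LinearMap.fst ℚ _ _) := by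
      rw [Submodule.span_le]
      rintro _ ⟨S, hS, rfl⟩
      rw [SetLike.mem_coe, Submodule.mem_comap]
      refine ⟨Pi.single (e ⟨S, hS⟩) 1, ?_⟩
      rw [hL, Finset.sum_eq_single ⟨S, hS⟩]
      · rw [Pi.single_eq_same, one_smul]
        rfl
      · intro T _ hT
        rw [Pi.single_eq_of_ne (fun h => hT (e.injective h)), zero_smul]
      · intro h
        exact absurd (mem_univ _) h
    exact hle h5
  have hrn := LinearMap.finrank_range_add_finrank_ker L
  rw [hrange, finrank_top, ← hWL, ← hcb, Module.finrank_fintype_fun_eq_card, Fintype.card_congr e.symm,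
    Fintype.card_finset_len, Fintype.card_fin] at hrn
  have hd : finrank ℚ ((Fin (n - 1) → ℚ) →ₗ[ℚ] ℚ) = n - 1 := by
    have := Subspace.dual_finrank_eq (K := ℚ) (V := Fin (n - 1) → ℚ)
    rw [Module.finrank_fin_fun] at this
    exact this
  rw [hd] at hrn
  rw [add_comm]
  exact hrn

end Pool.Agent.CB
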