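import Pool.Agent.CB.Stm4

/-!
# Project CB, piece D-CZA: the weights of small dimension
-/

set_option autoImplicit false

namespace Pool.Agent.CB

open Finset Module

namespace CZA

variable {n k : ℕ}

theorem mem_enc {A B : Finset (Fin n)} {i : Fin n × Bool} :
    i ∈ enc A B ↔ (i.2 = false ∧ i.1 ∈ A) ∨ (i.2 = true ∧ i.1 ∈ B) := by
  unfold enc
  rw [Finset.mem_filter]
  exact and_iff_right (Finset.mem_univ _)

theorem enc_card (A B : Finset (Fin n)) : (enc A B).card = A.card + B.card := by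
  have e : enc A B = A.map ⟨fun m => (m, false), fun a b h => congrArg Prod.fst h⟩ ∪
      B.map ⟨fun m => (m, true), fun a b h => congrArg Prod.fst h⟩ := by
    ext ⟨m, ε⟩
    rw [mem_enc, Finset.mem_union, Finset.mem_map, Finset.mem_map]
    cases ε <;> simp
  rw [e, Finset.card_union_of_disjoint, Finset.card_map, Finset.card_map]
  rw [Finset.disjoint_left]
  rintro x h1 h2
  obtain ⟨a, -, rfl⟩ := Finset.mem_map.1 h1
  obtain ⟨b, -, hb⟩ := Finset.mem_map.1 h2
  have := congrArg Prod.snd hb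
  simp at this

theorem erase_false {A B : Finset (Fin n)} (m : Fin n) :
    (enc A B).erase (m, false) = enc (A.erase m) B := by
  ext ⟨l, ε⟩
  rw [Finset.mem_erase, mem_enc, mem_enc]
  cases ε <;> simp

theorem erase_true {A B : Finset (Fin n)} (m : Fin n) :
    (enc A B).erase (m, true) = enc A (B.erase m) := by
  ext ⟨l, ε⟩
  rw [Finset.mem_erase, mem_enc, mem_enc]
  cases ε <;> simp

theorem erase_adm {A B : Finset (Fin n)} (h : Adm k A B) (h2 : 2 ≤ A.card + B.card)
    {i : Fin n × Bool} (hi : i ∈ enc A B) :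
    ∃ A' B', Adm k A' B' ∧ (enc A B).erase i = enc A' B' ∧ A'.card + B'.card + 1 = A.card + B.card := by
  obtain ⟨hd, ha, hb, -⟩ := h
  obtain ⟨m, ε⟩ := i
  rw [mem_enc] at hi
  have hne : ∀ A' B' : Finset (Fin n), A'.card + B'.card + 1 = A.card + B.card → (A' ∪ B').Nonempty := by
    intro A' B' h
    rw [Finset.union_nonempty, ← Finset.card_pos, ← Finset.card_pos]
    omega
  cases ε with
  | false =>
    have hm : m ∈ A := by simpa using hi
    have hc := Finset.card_erase_add_one hm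
    refine ⟨A.erase m, B, ⟨Finset.disjoint_of_subset_left (Finset.erase_subset _ _) hd, by omega, hb,
      hne _ _ (by omega)⟩, erase_false m, by omega⟩
  | true =>
    have hm : m ∈ B := by simpa using hi
    have hc := Finset.card_erase_add_one hm
    refine ⟨A, B.erase m, ⟨Finset.disjoint_of_subset_right (Finset.erase_subset _ _) hd, ha, by omega,
      hne _ _ (by omega)⟩, erase_true m, by omega⟩

/-- faces of small dimension -/
theorem of_dim (h1 : S_DDIM) {q : Fin n × Bool → Fin (n - 1) → ℚ} (hq : DF k q) {l : ℕ} (hl : l + 3 ≤ n)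
    {G : Finset (Fin n × Bool)} (hG : IsFace q G) (hd : dim q G = l) :
    ∃ A B : Finset (Fin n), Adm k A B ∧ A.card + B.card = l + 1 ∧ G = enc A B := by
  obtain ⟨d1, d2, d3, -⟩ := h1 n k q hq
  rcases (hq.2.2.2 G).1 hG with rfl | ⟨A, B, hA, rfl⟩ | ⟨S, rfl⟩
  · omega
  · have := d3 A B hA
    exact ⟨A, B, hA, by omega, rfl⟩
  · have := d2 S
    omega

/-- integral multiples -/
theorem int_mul {d : ℕ} (x : Fin d → ℚ) : ∃ M : ℚ, 0 < M ∧ Integral (M • x) := by
  refine ⟨((∏ c, (x c).den : ℕ) : ℚ), ?_, fun c => ?_⟩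
  · exact_mod_cast Finset.prod_pos fun c _ => (x c).den_pos
  · obtain ⟨e, he⟩ := Finset.dvd_prod_of_mem (fun c => (x c).den) (Finset.mem_univ c)
    refine ⟨(x c).num * e, ?_⟩
    rw [Pi.smul_apply, smul_eq_mul, he]
    have h := Rat.mul_den_eq_num (x c)
    push_cast
    calc ((x c).den : ℚ) * e * x c = (x c * (x c).den) * e := by ring
      _ = (x c).num * e := by rw [h]

/-- the situation of a simplex `G` -/
structure Gd (q : Fin n × Bool → Fin (n - 1) → ℚ) (j : ℕ) (G : Finset (Fin n × Bool)) : Prop where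
  face : IsFace q G
  dim : dim q G = j + 1
  card : G.card = j + 2
  er : ∀ i ∈ G, IsFace q (G.erase i) ∧ Pool.Agent.CB.dim q (G.erase i) = j
  sub : ∀ F, IsFace q F → Pool.Agent.CB.dim q F = j → F ⊆ G → ∃ i ∈ G, F = G.erase i

theorem gd (h1 : S_DDIM) {q : Fin n × Bool → Fin (n - 1) → ℚ} (hq : DF k q) {j : ℕ} (hj : j + 4 ≤ n)
    {A B : Finset (Fin n)} (h : Adm k A B) (hc : A.card + B.card = j + 2) : Gd q j (enc A B) := by
  obtain ⟨d1, d2, d3, -⟩ := h1 n k q hq
  have hcard : (enc A B).card = j + 2 := by rw [enc_card, hc]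
  refine ⟨(hq.2.2.2 _).2 (Or.inr (Or.inl ⟨A, B, h, rfl⟩)), ?_, hcard, fun i hi => ?_, fun F hF hd hs => ?_⟩
  · have := d3 A B h
    omega
  · obtain ⟨A', B', h', e, hc'⟩ := erase_adm h (by omega) hi
    rw [e]
    refine ⟨(hq.2.2.2 _).2 (Or.inr (Or.inl ⟨A', B', h', rfl⟩)), ?_⟩
    have := d3 A' B' h'
    omega
  · obtain ⟨A', B', h', hc', rfl⟩ := of_dim h1 hq (by omega) hF hd
    have hcF : (enc A' B').card = j + 1 := by rw [enc_card, hc']
    have hne : enc A' B' ≠ enc A B := fun e => by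
      rw [e] at hcF
      omega
    obtain ⟨i, hi, hi'⟩ := Finset.exists_of_ssubset (Finset.ssubset_iff_subset_ne.2 ⟨hs, hne⟩)
    refine ⟨i, hi, Finset.eq_of_subset_of_card_le (fun x hx => Finset.mem_erase.2 ⟨?_, hs hx⟩) ?_⟩
    · rintro rfl
      exact hi' hx
    · rw [Finset.card_erase_of_mem hi]
      omega

theorem key {q : Fin n × Bool → Fin (n - 1) → ℚ} {j : ℕ} {G : Finset (Fin n × Bool)} (hG : Gd q j G)
    (hEX : ∀ i ∈ G, ∀ ν, Normal q (G.erase i) G ν → (∀ x ∈ lin q G, ν x = 0 → x ∈ lin q (G.erase i)))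
    {N : ℚ} {vol : Finset (Fin n × Bool) → ℚ} (hN : 0 < N)
    (hvol : ∀ T, T.Nonempty → dim q T + 1 = T.card → 0 < vol T)
    (hV : ∀ (F : Finset (Fin n × Bool)) (i : Fin n × Bool), F.Nonempty → i ∉ F → dim q F + 1 = F.card →
      dim q (insert i F) + 1 = (insert i F).card → ∀ ν, Normal q F (insert i F) ν →
        (∀ x ∈ lin q (insert i F), ν x = 0 → x ∈ lin q F) → ∀ j ∈ F,
          vol (insert i F) = vol F * (N * ν (q i - q j)))
    (ν : Fin n × Bool → (Fin (n - 1) → ℚ) →ₗ[ℚ] ℚ) (hν : ∀ i ∈ G, Normal q (G.erase i) G (ν i))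
    (w : Finset (Fin n × Bool) → ℚ) :
    (∀ u ∈ lin q G, Integral u → ∑ i ∈ G, ν i u * w (G.erase i) = 0) ↔
      ∀ i ∈ G, ∀ i' ∈ G, w (G.erase i) / vol (G.erase i) = w (G.erase i') / vol (G.erase i') := by
  have hcE : ∀ i ∈ G, (G.erase i).card = j + 1 := fun i hi => by
    rw [Finset.card_erase_of_mem hi, hG.card]
    rfl
  have hneE : ∀ i ∈ G, (G.erase i).Nonempty := fun i hi => by
    rw [← Finset.card_pos, hcE i hi]
    exact Nat.succ_pos j
  have hneG : G.Nonempty := by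
    rw [← Finset.card_pos, hG.card]
    exact Nat.succ_pos _
  have hvE : ∀ i ∈ G, 0 < vol (G.erase i) := fun i hi =>
    hvol _ (hneE i hi) (by rw [(hG.er i hi).2, hcE i hi])
  have hvG : 0 < vol G := hvol _ hneG (by rw [hG.dim, hG.card])
  have hh : ∀ i ∈ G, ∀ i' ∈ G, i ≠ i' → ν i (q i - q i') = vol G / (N * vol (G.erase i)) := by
    intro i hi i' hi' hne
    have e : insert i (G.erase i) = G := Finset.insert_erase hi
    have h := hV (G.erase i) i (hneE i hi) (Finset.notMem_erase i G) (by rw [(hG.er i hi).2, hcE i hi])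
      (by rw [e, hG.dim, hG.card]) (ν i) (by rw [e]; exact hν i hi) (by rw [e]; exact hEX i hi _ (hν i hi))
      i' (Finset.mem_erase.2 ⟨hne.symm, hi'⟩)
    rw [e] at h
    have h0 := hvE i hi
    rw [h]
    field_simp
  have hz : ∀ i ∈ G, ∀ i' ∈ G, ∀ l ∈ G, l ≠ i → l ≠ i' → ν l (q i - q i') = 0 := by
    intro i hi i' hi' l hl h1 h2
    exact (hν l hl).1 _ (Submodule.subset_span ⟨i, Finset.mem_erase.2 ⟨h1.symm, hi⟩, i',
      Finset.mem_erase.2 ⟨h2.symm, hi'⟩, rfl⟩)
  have hval : ∀ i ∈ G, ∀ i' ∈ G, i ≠ i' → ∑ l ∈ G, ν l (q i - q i') * w (G.erase l) =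
      vol G / N * (w (G.erase i) / vol (G.erase i) - w (G.erase i') / vol (G.erase i')) := by
    intro i hi i' hi' hne
    rw [Finset.sum_eq_add i i' hne (fun c hc h => by rw [hz i hi i' hi' c hc h.1 h.2, zero_mul])
      (fun h => absurd hi h) (fun h => absurd hi' h), hh i hi i' hi' hne]
    have e : q i - q i' = -(q i' - q i) := by abel
    rw [e, map_neg, hh i' hi' i hi hne.symm]
    have h0 := hvE i hi
    have h0' := hvE i' hi'
    field_simp
    ring
  constructor
  · intro h i hi i' hi'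
    by_cases hne : i = i'
    · rw [hne]
    have hmem : q i - q i' ∈ lin q G := Submodule.subset_span ⟨i, hi, i', hi', rfl⟩
    obtain ⟨M, hM, hMI⟩ := int_mul (q i - q i')
    have h3 := h _ (Submodule.smul_mem _ M hmem) hMI
    have h4 : ∑ l ∈ G, ν l (M • (q i - q i')) * w (G.erase l) =
        M * ∑ l ∈ G, ν l (q i - q i') * w (G.erase l) := by
      rw [Finset.mul_sum]
      refine Finset.sum_congr rfl fun l _ => ?_
      rw [map_smul, smul_eq_mul]
      ring
    rw [h4, hval i hi i' hi' hne] at h3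
    have h5 : vol G / N ≠ 0 := (div_pos hvG hN).ne'
    rcases mul_eq_zero.1 h3 with h6 | h6
    · exact absurd h6 hM.ne'
    · rcases mul_eq_zero.1 h6 with h7 | h7
      · exact absurd h7 h5
      · exact sub_eq_zero.1 h7
  · intro h u hu _
    refine Submodule.span_induction (p := fun u _ => ∑ i ∈ G, ν i u * w (G.erase i) = 0) ?_ ?_ ?_ ?_ hu
    · rintro _ ⟨i, hi, i', hi', rfl⟩
      by_cases hne : i = i'
      · subst hne
        refine Finset.sum_eq_zero fun l _ => ?_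
        rw [sub_self, map_zero, zero_mul]
      · rw [hval i hi i' hi' hne, h i hi i' hi', sub_self, mul_zero]
    · refine Finset.sum_eq_zero fun l _ => ?_
      rw [map_zero, zero_mul]
    · intro x y _ _ hx hy
      have e : ∑ i ∈ G, ν i (x + y) * w (G.erase i) =
          ∑ i ∈ G, ν i x * w (G.erase i) + ∑ i ∈ G, ν i y * w (G.erase i) := by
        rw [← Finset.sum_add_distrib]
        refine Finset.sum_congr rfl fun l _ => ?_
        rw [map_add]
        ring
      rw [e, hx, hy, add_zero]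
    · intro a x _ hx
      have e : ∑ i ∈ G, ν i (a • x) * w (G.erase i) = a * ∑ i ∈ G, ν i x * w (G.erase i) := by
        rw [Finset.mul_sum]
        refine Finset.sum_congr rfl fun l _ => ?_
        rw [map_smul, smul_eq_mul]
        ring
      rw [e, hx, mul_zero]

open Classical in
theorem sum_rel {q : Fin n × Bool → Fin (n - 1) → ℚ} {j : ℕ} {G : Finset (Fin n × Bool)} (hG : Gd q j G)
    (ν : Fin n × Bool → (Fin (n - 1) → ℚ) →ₗ[ℚ] ℚ) (w : Finset (Fin n × Bool) → ℚ) (u : Fin (n - 1) → ℚ)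
    (r : FaceOf q j →₀ ℚ) (h0 : ∀ F : FaceOf q j, ¬ F.1 ⊆ G → r F = 0)
    (h1 : ∀ i, ∀ hi : i ∈ G, r ⟨G.erase i, hG.er i hi⟩ = ν i u) :
    r.sum (fun F a => a * w F.1) = ∑ i ∈ G, ν i u * w (G.erase i) := by
  haveI : Fintype (FaceOf q j) := Fintype.ofFinite _
  rw [Finsupp.sum_fintype _ _ (fun F => zero_mul _), ← Finset.sum_attach G]
  symm
  have e : ∀ i : {x // x ∈ G}, ν i.1 u * w (G.erase i.1) =
      r ⟨G.erase i.1, hG.er i.1 i.2⟩ * w (G.erase i.1) := fun i => by rw [h1 i.1 i.2]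
  rw [Finset.sum_congr rfl fun i _ => e i]
  refine Finset.sum_of_injOn (fun i : {x // x ∈ G} => (⟨G.erase i.1, hG.er i.1 i.2⟩ : FaceOf q j)) ?_ ?_ ?_ ?_
  · intro a _ b _ hab
    have := congrArg Subtype.val hab
    exact Subtype.ext (Finset.erase_injOn G a.2 b.2 this)
  · intro a _
    exact Finset.mem_coe.2 (Finset.mem_univ _)
  · intro F _ hF
    by_cases hs : F.1 ⊆ G
    · obtain ⟨i, hi, he⟩ := hG.sub F.1 F.2.1 F.2.2 hs
      refine absurd ⟨⟨i, hi⟩, Finset.mem_coe.2 (Finset.mem_attach _ _), ?_⟩ hF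
      exact Subtype.ext he.symm
    · rw [h0 F hs, zero_mul]
  · intro i _
    rfl

end CZA

open CZA in
open Classical in
theorem t_CZA (h1 : S_DDIM) (h2 : S_DEXN) (h3 : S_DVOL) : D_CZA := by
  intro n k q hq j hj
  obtain ⟨N, vol, hN, hvol, hV⟩ := h3 (Fin n × Bool) (n - 1) q
  refine ⟨vol, fun T hT hd => ?_, fun w => ?_⟩
  · obtain ⟨A, B, hA, hc, rfl⟩ := of_dim h1 hq (by omega) hT hd
    refine hvol _ ?_ (by rw [hd, enc_card, hc])
    rw [← Finset.card_pos, enc_card, hc]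
    exact Nat.succ_pos j
  have hN' : ∀ {G : Finset (Fin n × Bool)}, Gd q j G → ∀ i ∈ G,
      (∃ ν, Normal q (G.erase i) G ν) ∧
      (∀ ν ν', Normal q (G.erase i) G ν → Normal q (G.erase i) G ν' → ∀ x ∈ lin q G, ν x = ν' x) ∧
      (∀ ν, Normal q (G.erase i) G ν → ∀ x ∈ lin q G, ν x = 0 → x ∈ lin q (G.erase i)) := by
    intro G hG i hi
    obtain ⟨a, b, c, -⟩ := h2 (Fin n × Bool) (n - 1) q (G.erase i) G (hG.er i hi).1 hG.face
      (Finset.erase_subset _ _) (by rw [(hG.er i hi).2, hG.dim])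
    exact ⟨a, b, c⟩
  have hch : ∀ {G : Finset (Fin n × Bool)}, Gd q j G →
      ∃ ν : Fin n × Bool → (Fin (n - 1) → ℚ) →ₗ[ℚ] ℚ, ∀ i ∈ G, Normal q (G.erase i) G (ν i) := by
    intro G hG
    refine ⟨fun i => if hi : i ∈ G then Classical.choose (hN' hG i hi).1 else 0, fun i hi => ?_⟩
    simp only [dif_pos hi]
    exact Classical.choose_spec (hN' hG i hi).1
  constructor
  · intro h A B hA hc
    have hG := gd h1 hq hj hA hc
    obtain ⟨ν, hν⟩ := hch hG
    refine (key hG (fun i hi => (hN' hG i hi).2.2) hN hvol hV ν hν w).1 fun u hu huI => ?_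
    have hex : ∀ F : FaceOf q j, F.1 ⊆ enc A B → ∃ μ, Normal q F.1 (enc A B) μ := by
      intro F hF
      obtain ⟨i, hi, he⟩ := hG.sub F.1 F.2.1 F.2.2 hF
      rw [he]
      exact (hN' hG i hi).1
    obtain ⟨r, hr⟩ : ∃ r : FaceOf q j →₀ ℚ, ∀ F, r F = if hF : F.1 ⊆ enc A B then
        Classical.choose (hex F hF) u else 0 := by
      haveI : Fintype (FaceOf q j) := Fintype.ofFinite _
      exact ⟨Finsupp.equivFunOnFinite.symm _, fun F => rfl⟩
    have h0 : ∀ F : FaceOf q j, ¬ F.1 ⊆ enc A B → r F = 0 := fun F hF => by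
      rw [hr, dif_neg hF]
    rw [← sum_rel hG ν w u r h0 fun i hi => ?_]
    · refine h r ⟨enc A B, hG.face, hG.dim, u, hu, huI, fun F => ⟨h0 F, fun hF => ?_⟩⟩
      exact ⟨_, Classical.choose_spec (hex F hF), by rw [hr, dif_pos hF]⟩
    · have hs : (G' : Finset (Fin n × Bool)) → G' = (enc A B).erase i → G' ⊆ enc A B := by
        rintro _ rfl
        exact Finset.erase_subset _ _
      rw [hr, dif_pos (hs _ rfl)]
      exact (hN' hG i hi).2.1 _ _ (Classical.choose_spec (hex ⟨(enc A B).erase i, hG.er i hi⟩ (hs _ rfl)))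
        (hν i hi) u hu
  · rintro h r ⟨G, hGf, hGd, u, hu, huI, hr⟩
    obtain ⟨A, B, hA, hc, rfl⟩ := of_dim h1 hq (by omega) hGf hGd
    have hG := gd h1 hq hj hA hc
    obtain ⟨ν, hν⟩ := hch hG
    rw [sum_rel hG ν w u r (fun F hF => (hr F).1 hF) fun i hi => ?_]
    · exact (key hG (fun i hi => (hN' hG i hi).2.2) hN hvol hV ν hν w).2 (h A B hA hc) u hu huI
    · obtain ⟨μ, hμ, e⟩ := (hr ⟨(enc A B).erase i, hG.er i hi⟩).2 (Finset.erase_subset _ _)
      rw [e]
      exact (hN' hG i hi).2.1 _ _ hμ (hν i hi) u hu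

end Pool.Agent.CB
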