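import Pool.Agent.CB.Stm4

/-!
# Project CB, part 2, piece D-CZR: the small Chow-Betti numbers of the dual are one
-/

set_option autoImplicit false

namespace Pool.Agent.CB

open Finset Module

theorem t_CZR (h1 : S_DDIM) (h2 : S_DWTS) (h3 : S_DCNN) (h4 : D_CZA) : D_CZR := by
  intro n k q hq j hj
  classical
  obtain ⟨W, hW, hb⟩ := h2 (Fin n × Bool) (n - 1) q j
  obtain ⟨vol, hvol, hrel⟩ := h4 n k q hq j hj
  obtain ⟨d1, d2, d3, -⟩ := h1 n k q hq
  obtain ⟨hk2, hkn, -, hface⟩ := hq
  have hadm : ∀ A B : Finset (Fin n), Adm k A B → A.card + B.card = j + 1 →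
      IsFace q (enc A B) ∧ dim q (enc A B) = j := by
    intro A B h h'
    refine ⟨(hface _).2 (Or.inr (Or.inl ⟨A, B, h, rfl⟩)), ?_⟩
    have := d3 A B h
    omega
  have hfaces : ∀ T, IsFace q T → dim q T = j →
      ∃ A B : Finset (Fin n), Adm k A B ∧ A.card + B.card = j + 1 ∧ T = enc A B := by
    intro T hT hd
    rcases (hface T).1 hT with h | ⟨A, B, h, h'⟩ | ⟨S, h⟩
    · rw [h, d1] at hd; omega
    · refine ⟨A, B, h, ?_, h'⟩
      have := d3 A B h
      rw [h'] at hd
      omega
    · rw [h, d2] at hd; omega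
  have herase : ∀ A B : Finset (Fin n), Adm k A B → A.card + B.card = j + 2 → ∀ i ∈ enc A B,
      ∃ A' B' : Finset (Fin n), Adm k A' B' ∧ A'.card + B'.card = j + 1 ∧
        (enc A B).erase i = enc A' B' := by
    rintro A B ⟨hd, hA, hB, -⟩ hc ⟨m, ε⟩ hi
    have hi' : (ε = false ∧ m ∈ A) ∨ (ε = true ∧ m ∈ B) := by
      simpa [enc] using hi
    rcases hi' with ⟨rfl, hm⟩ | ⟨rfl, hm⟩
    · have hc' : (A.erase m).card + 1 = A.card := Finset.card_erase_add_one hm
      refine ⟨A.erase m, B, ⟨Finset.disjoint_of_subset_left (Finset.erase_subset m A) hd,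
        by omega, hB, ?_⟩, by omega, ?_⟩
      · rw [← Finset.card_pos]
        rw [Finset.card_union_of_disjoint
          (Finset.disjoint_of_subset_left (Finset.erase_subset m A) hd)]
        omega
      · ext ⟨x, δ⟩
        cases δ <;> simp [enc]
    · have hc' : (B.erase m).card + 1 = B.card := Finset.card_erase_add_one hm
      refine ⟨A, B.erase m, ⟨Finset.disjoint_of_subset_right (Finset.erase_subset m B) hd,
        hA, by omega, ?_⟩, by omega, ?_⟩
      · rw [← Finset.card_pos]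
        rw [Finset.card_union_of_disjoint
          (Finset.disjoint_of_subset_right (Finset.erase_subset m B) hd)]
        omega
      · ext ⟨x, δ⟩
        cases δ <;> simp [enc]
  have hpos : ∀ A B : Finset (Fin n), Adm k A B → A.card + B.card = j + 1 → 0 < vol (enc A B) :=
    fun A B h h' => hvol _ (hadm A B h h').1 (hadm A B h h').2
  -- the weight `vol`
  let w0 : FaceOf q j → ℚ := fun F => vol F.1
  have hw0 : w0 ∈ W := by
    rw [hW]
    refine (hrel vol).2 ?_
    intro A B hAB hc i hi i' hi'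
    obtain ⟨A1, B1, e1, e2, e3⟩ := herase A B hAB hc i hi
    obtain ⟨A2, B2, f1, f2, f3⟩ := herase A B hAB hc i' hi'
    rw [e3, f3, div_self (hpos _ _ e1 e2).ne', div_self (hpos _ _ f1 f2).ne']
  -- there is a face
  obtain ⟨A0, B0, hAB0, hc0⟩ : ∃ A B : Finset (Fin n), Adm k A B ∧ A.card + B.card = j + 1 := by
    have ha : min (j + 1) (n - k - 1) ≤ (univ : Finset (Fin n)).card := by
      rw [Finset.card_univ, Fintype.card_fin]; omega
    obtain ⟨A, -, hA⟩ := Finset.exists_subset_card_eq ha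
    have hb' : j + 1 - min (j + 1) (n - k - 1) ≤ (Aᶜ).card := by
      rw [Finset.card_compl, Fintype.card_fin, hA]; omega
    obtain ⟨B, hBA, hB⟩ := Finset.exists_subset_card_eq hb'
    have hd : Disjoint A B := by
      rw [Finset.disjoint_left]
      intro x hx hx'
      exact (Finset.mem_compl.1 (hBA hx')) hx
    refine ⟨A, B, ⟨hd, by omega, by omega, ?_⟩, by omega⟩
    rw [← Finset.card_pos, Finset.card_union_of_disjoint hd]
    omega
  let F0 : FaceOf q j := ⟨enc A0 B0, hadm A0 B0 hAB0 hc0⟩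
  rw [hb]
  refine finrank_eq_one (⟨w0, hw0⟩ : W) ?_ ?_
  · intro h0
    have h5 : w0 F0 = 0 := by
      have h6 : w0 = 0 := congrArg Subtype.val h0
      rw [h6]; rfl
    exact absurd h5 (hpos A0 B0 hAB0 hc0).ne'
  · rintro ⟨w, hw⟩
    rw [hW] at hw
    let w' : Finset (Fin n × Bool) → ℚ := fun T => if h : IsFace q T ∧ dim q T = j then w ⟨T, h⟩ else 0
    have hw' : ∀ F : FaceOf q j, w' F.1 = w F := fun F => by
      show (if h : IsFace q F.1 ∧ dim q F.1 = j then w ⟨F.1, h⟩ else 0) = w F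
      rw [dif_pos F.2]
    have h5 := (hrel w').1 (fun r hr => by
      simp only [hw']
      exact hw r hr)
    have h6 := h3 n k (j + 1) hk2 hkn (by omega) (by omega) (fun T => w' T / vol T)
      (fun A B hAB hc i hi i' hi' => h5 A B hAB (by omega) i hi i' hi')
    refine ⟨w' (enc A0 B0) / vol (enc A0 B0), ?_⟩
    apply Subtype.ext
    funext F
    obtain ⟨A, B, hAB, hc, hT⟩ := hfaces F.1 F.2.1 F.2.2
    have h7 : w' (enc A0 B0) / vol (enc A0 B0) = w' (enc A B) / vol (enc A B) :=
      h6 A0 B0 A B hAB0 hAB hc0 hc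
    show w' (enc A0 B0) / vol (enc A0 B0) * vol F.1 = w F
    rw [h7, ← hw' F, hT, div_mul_cancel₀ _ (hpos A B hAB hc).ne']

end Pool.Agent.CB

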