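import Pool.Agent.CB.Stm4

/-!
# Project CB, part 2: D-DEP, the dependencies of the normals
-/

set_option autoImplicit false

namespace Pool.Agent.CB

open Finset Module

/-- `A ↦ (S ↦ the vector u with g u = A (z S) g)` -/
noncomputable def depMap (n k : ℕ) (z : Finset (Fin n) → (Fin (n - 1) → ℚ) →ₗ[ℚ] ℚ) :
    (((Fin (n - 1) → ℚ) →ₗ[ℚ] ℚ) →ₗ[ℚ] ((Fin (n - 1) → ℚ) →ₗ[ℚ] ℚ) →ₗ[ℚ] ℚ) →ₗ[ℚ]
      (Sub k n → Fin (n - 1) → ℚ) :=
  LinearMap.pi fun S => (Module.evalEquiv ℚ (Fin (n - 1) → ℚ)).symm.toLinearMap ∘ₗ LinearMap.applyₗ (z S.1)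

theorem depMap_apply (n k : ℕ) (z : Finset (Fin n) → (Fin (n - 1) → ℚ) →ₗ[ℚ] ℚ)
    (A : ((Fin (n - 1) → ℚ) →ₗ[ℚ] ℚ) →ₗ[ℚ] ((Fin (n - 1) → ℚ) →ₗ[ℚ] ℚ) →ₗ[ℚ] ℚ) (S : Sub k n)
    (g : (Fin (n - 1) → ℚ) →ₗ[ℚ] ℚ) : g (depMap n k z A S) = A (z S.1) g := by
  simp only [depMap, LinearMap.pi_apply, LinearMap.comp_apply, LinearMap.applyₗ_apply_apply]
  exact Module.apply_evalEquiv_symm_apply (R := ℚ) (M := Fin (n - 1) → ℚ) g (A (z S.1))

theorem dep_sep {d : ℕ} (x y : Fin d → ℚ) (h : ∀ g : (Fin d → ℚ) →ₗ[ℚ] ℚ, g x = g y) : x = y := by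
  ext i
  exact h (LinearMap.proj i)

theorem dep_nb {n k : ℕ} {S T : Finset (Fin n)} (hS : S.card = k) (h : Nb S T) : T.card = k := by
  obtain ⟨x, hx, y, hy, rfl⟩ := h
  have := card_pos.2 ⟨x, hx⟩
  rw [card_insert_of_notMem (fun h => hy (mem_of_mem_erase h)), card_erase_of_mem hx]
  omega

theorem dep_alt {W : Type} [AddCommGroup W] [Module ℚ W] (A : W →ₗ[ℚ] W →ₗ[ℚ] ℚ) (h : ∀ x, A x x = 0) (x y : W) :
    A x y + A y x = 0 := by
  have h1 := h (x + y)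
  simp only [map_add, LinearMap.add_apply, h x, h y] at h1
  linarith

theorem t_DEP (h1 : ∀ m k, 1 ≤ k → k + 1 ≤ m → Rg m k) (h2 : D_SPZ) (h3 : R_ALT) : D_DEP := by
  intro n k q z c hDF hFu
  have hk : 2 ≤ k := hDF.1
  have hkn : k + 2 ≤ n := hDF.2.1
  obtain ⟨hsp, -⟩ := h2 n k q z c hDF hFu
  obtain ⟨X, hX, hXr⟩ := h3 ((Fin (n - 1) → ℚ) →ₗ[ℚ] ℚ)
  have hfd : finrank ℚ ((Fin (n - 1) → ℚ) →ₗ[ℚ] ℚ) = n - 1 := by
    have := Subspace.dual_finrank_eq (K := ℚ) (V := Fin (n - 1) → ℚ)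
    rw [Module.finrank_fin_fun] at this
    exact this
  rw [hfd] at hXr
  -- the `z S` span
  have hz : ∀ (A : ((Fin (n - 1) → ℚ) →ₗ[ℚ] ℚ) →ₗ[ℚ] ((Fin (n - 1) → ℚ) →ₗ[ℚ] ℚ) →ₗ[ℚ] ℚ),
      (∀ S : Finset (Fin n), S.card = k → A (z S) = 0) → A = 0 := by
    intro A hA
    refine LinearMap.ext fun f => ?_
    have hf : ∀ y : ((Fin (n - 1) → ℚ) →ₗ[ℚ] ℚ) × ℚ, A y.1 = 0 := by
      intro y
      refine Submodule.span_induction (p := fun y _ => A y.1 = 0) ?_ ?_ ?_ ?_ (hsp y)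
      · rintro x ⟨S, hS, rfl⟩
        exact hA S hS
      · simp
      · intro x y _ _ hx hy
        simp [hx, hy]
      · intro a x _ hx
        simp [hx]
    exact hf (f, 0)
  have hinj : Function.Injective (depMap n k z) := by
    rw [injective_iff_map_eq_zero]
    intro A hA
    refine hz A fun S hS => ?_
    ext1 g
    rw [← depMap_apply n k z A ⟨S, hS⟩ g, hA]
    simp
  refine ⟨X.map (depMap n k z), fun u => ?_, ?_⟩
  · constructor
    · rintro ⟨A, hA, rfl⟩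
      have hA' := (hX A).1 hA
      refine ⟨fun S => ?_, fun S T _ => ?_⟩
      · rw [depMap_apply, hA']
      · rw [depMap_apply, depMap_apply]
        exact dep_alt A hA' _ _
    · rintro ⟨hu1, hu2⟩
      classical
      obtain ⟨u', hu'⟩ : ∃ u' : Finset (Fin n) → Fin (n - 1) → ℚ, ∀ S : Sub k n, u' S.1 = u S :=
        ⟨fun S => if h : S.card = k then u ⟨S, h⟩ else 0, fun S => by simp [S.2]⟩
      obtain ⟨A, hA0, hA⟩ := h1 n k (by omega) (by omega) (Fin n) (((Fin (n - 1) → ℚ) →ₗ[ℚ] ℚ) × ℚ)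
        (by simp) (by rw [Module.finrank_prod, hfd, Module.finrank_self]; omega)
        (fun S => (z S, c S)) (fun m => ev (q (m, false))) (fun m => ev (q (m, true)))
        (fun S => (LinearMap.applyₗ (u' S)).comp (LinearMap.fst ℚ _ _)) (sg_of_fu k n q z c hFu)
        ⟨fun S hS => by
          have := hu1 ⟨S, hS⟩
          rw [← hu' ⟨S, hS⟩] at this
          exact this,
        fun S T hS hN => by
          have := hu2 ⟨S, hS⟩ ⟨T, dep_nb hS hN⟩ hN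
          rw [← hu' ⟨S, hS⟩, ← hu' ⟨T, dep_nb hS hN⟩] at this
          exact this⟩
      have hA1 : ∀ y : ((Fin (n - 1) → ℚ) →ₗ[ℚ] ℚ) × ℚ, A y (0, 1) = 0 := by
        intro y
        refine Submodule.span_induction (p := fun y _ => A y (0, 1) = 0) ?_ ?_ ?_ ?_ (hsp y)
        · rintro x ⟨S, hS, rfl⟩
          rw [← hA S hS]
          simp
        · simp
        · intro x y _ _ hx hy
          simp [hx, hy]
        · intro a x _ hx
          simp [hx]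
      refine ⟨A.compl₁₂ (LinearMap.inl ℚ _ ℚ) (LinearMap.inl ℚ _ ℚ), (hX _).2 fun f => by
        simpa using hA0 (f, 0), ?_⟩
      funext S
      refine dep_sep _ _ fun g => ?_
      rw [depMap_apply, LinearMap.compl₁₂_apply, LinearMap.inl_apply, LinearMap.inl_apply]
      have e1 : ((z S.1, 0) : ((Fin (n - 1) → ℚ) →ₗ[ℚ] ℚ) × ℚ) = (z S.1, c S.1) - c S.1 • (0, 1) := by
        ext <;> simp
      have e2 := dep_alt A hA0 (g, 0) (0, 1)
      rw [hA1, zero_add] at e2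
      rw [e1, map_sub, map_smul, LinearMap.sub_apply, LinearMap.smul_apply, e2, ← hA S.1 S.2]
      simp [hu' S]
  · rw [← (Submodule.equivMapOfInjective (depMap n k z) hinj X).finrank_eq, hXr]

end Pool.Agent.CB
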