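import Pool.Agent.CB.Stm4

/-!
# Piece D-FCT (helper58): the facets
-/

set_option autoImplicit false

namespace Pool.Agent.CB

open Finset Module

theorem t_FCT (h : S_DDIM) : D_FCT := by
  intro n k q hq
  obtain ⟨d1, d2, d3, -⟩ := h n k q hq
  obtain ⟨hk, hkn, -, hF⟩ := hq
  refine ⟨fun G => ⟨?_, ?_⟩, ?_, fun G => ⟨?_, ?_⟩⟩
  · rintro ⟨hG, hd⟩
    rcases (hF G).1 hG with rfl | ⟨A, B, hAB, rfl⟩ | hS
    · rw [d1] at hd
      omega
    · have h1 := d3 A B hAB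
      obtain ⟨-, h2, h3, -⟩ := hAB
      omega
    · exact hS
  · rintro ⟨S, rfl⟩
    exact ⟨(hF _).2 (Or.inr (Or.inr ⟨S, rfl⟩)), d2 S⟩
  · intro S T hST
    ext m
    have h1 := Finset.ext_iff.1 hST (m, true)
    rw [mem_E, mem_E] at h1
    simpa using h1
  · rintro ⟨hG, hd⟩
    rcases (hF G).1 hG with rfl | ⟨A, B, hAB, rfl⟩ | ⟨S, rfl⟩
    · rfl
    · have h1 := d3 A B hAB
      obtain ⟨-, h2, h3, -⟩ := hAB
      omega
    · rw [d2 S] at hd
      omega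
  · rintro rfl
    exact ⟨(hF _).2 (Or.inl rfl), d1⟩

end Pool.Agent.CB
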