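import Pool.Agent.CB.Stm4
import Pool.Agent.CB.PRIM

set_option autoImplicit false

/-!
Project CB, part 2 (helper97), piece D-FUN (by helper39).
-/

namespace Pool.Agent.CB

open Finset Module

theorem FUN_one {n k : ℕ} {q : Fin n × Bool → Fin (n - 1) → ℚ} (h : DF k q) (S : Finset (Fin n))
    (hS : S.card = k) : ∃ (z : (Fin (n - 1) → ℚ) →ₗ[ℚ] ℚ) (c : ℚ), Prim z ∧
      ∀ i, (i ∈ E S → z (q i) + c = 0) ∧ (i ∉ E S → 0 < z (q i) + c) := by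
  obtain ⟨hk, hn, -, hface⟩ := h
  obtain ⟨⟨i0, hi0⟩, f, hf⟩ := (hface (E S)).2 (Or.inr (Or.inr ⟨⟨S, hS⟩, rfl⟩))
  have heq : ∀ i, i ∈ E S → f (q i) = f (q i0) := fun i hi =>
    le_antisymm ((hf i).1 hi i0) ((hf i0).1 hi0 i)
  have hlt : ∀ i, i ∉ E S → f (q i0) < f (q i) := by
    intro i hi
    have h1 : ¬ ∀ j, f (q i) ≤ f (q j) := fun h => hi ((hf i).2 h)
    push Not at h1
    obtain ⟨j, hj⟩ := h1
    exact lt_of_le_of_lt ((hf i0).1 hi0 j) hj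
  obtain ⟨i1, hi1⟩ : ∃ i, i ∉ E S := by
    have hn0 : 0 < n := by omega
    by_cases hm : (⟨0, hn0⟩ : Fin n) ∈ S
    · refine ⟨(⟨0, hn0⟩, false), ?_⟩
      rw [mem_E]
      simp [hm]
    · refine ⟨(⟨0, hn0⟩, true), ?_⟩
      rw [mem_E]
      simp [hm]
  have hne : ∃ x ∈ (⊤ : Submodule ℚ (Fin (n - 1) → ℚ)), f x ≠ 0 := by
    refine ⟨q i1 - q i0, Submodule.mem_top, ?_⟩
    rw [map_sub]
    exact (sub_pos.2 (hlt i1 hi1)).ne'
  obtain ⟨g, hg, h1, x, -, hx, hx1⟩ := t_PRIM (n - 1) ⊤ f hne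
  refine ⟨g • f, -(g * f (q i0)), ⟨?_, x, hx, ?_⟩, fun i => ⟨fun hi => ?_, fun hi => ?_⟩⟩
  · intro y hy
    obtain ⟨a, ha⟩ := h1 y Submodule.mem_top hy
    exact ⟨a, ha⟩
  · exact hx1
  · show g * f (q i) + -(g * f (q i0)) = 0
    rw [heq i hi]
    ring
  · show 0 < g * f (q i) + -(g * f (q i0))
    have h2 := mul_lt_mul_of_pos_left (hlt i hi) hg
    linarith

theorem t_FUN : D_FUN := by
  intro n k q h
  have h1 : ∀ S : Finset (Fin n), ∃ (z : (Fin (n - 1) → ℚ) →ₗ[ℚ] ℚ) (c : ℚ), S.card = k →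
      (Prim z ∧ ∀ i, (i ∈ E S → z (q i) + c = 0) ∧ (i ∉ E S → 0 < z (q i) + c)) := by
    intro S
    by_cases hS : S.card = k
    · obtain ⟨z, c, hz⟩ := FUN_one h S hS
      exact ⟨z, c, fun _ => hz⟩
    · exact ⟨0, 0, fun hc => absurd hc hS⟩
  choose z c hz using h1
  exact ⟨z, c, hz⟩

end Pool.Agent.CB
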