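import Pool.Agent.CB.Stm4

/-!
# Project CB, part 2, piece KER: the linear space of a facet is the kernel of its normal
-/

set_option autoImplicit false

namespace Pool.Agent.CB

open Finset Module

theorem t_KER (hD : S_DDIM) : D_KER := by
  intro n k q z c hq hz S hS x
  obtain ⟨hprim, hval⟩ := hz S hS
  have hle : lin q (E S) ≤ LinearMap.ker (z S) := by
    unfold lin
    rw [Submodule.span_le]
    rintro y ⟨i, hi, j, hj, rfl⟩
    rw [SetLike.mem_coe, LinearMap.mem_ker, map_sub]
    have h1 := (hval i).1 hi
    have h2 := (hval j).1 hj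
    linarith
  have h1 : finrank ℚ (lin q (E S)) = n - 2 := (hD n k q hq).2.1 ⟨S, hS⟩
  have hsur : Function.Surjective (z S) := by
    obtain ⟨-, y, -, hy⟩ := hprim
    intro r
    exact ⟨r • y, by rw [map_smul, hy, smul_eq_mul, mul_one]⟩
  have h2 := LinearMap.finrank_range_add_finrank_ker (z S)
  rw [LinearMap.range_eq_top.2 hsur, finrank_top, Module.finrank_self, Module.finrank_fin_fun] at h2
  have h3 : finrank ℚ (lin q (E S)) = finrank ℚ (LinearMap.ker (z S)) := by
    rw [h1]
    omega
  rw [Submodule.eq_of_le_of_finrank_eq hle h3, LinearMap.mem_ker]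

end Pool.Agent.CB
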