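import Pool.Agent.CB.Stm4

/-!
# Project CB, part 2, piece MUL: the multiplicity of two primitive functionals is symmetric
-/

set_option autoImplicit false

namespace Pool.Agent.CB

open Finset Module

namespace MUL

theorem int_add {d : ℕ} {x y : Fin d → ℚ} (hx : Integral x) (hy : Integral y) :
    Integral (x + y) := by
  intro c
  obtain ⟨a, ha⟩ := hx c
  obtain ⟨b, hb⟩ := hy c
  exact ⟨a + b, by rw [Pi.add_apply, ha, hb]; push_cast; rfl⟩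

theorem int_smul {d : ℕ} {x : Fin d → ℚ} (hx : Integral x) (s : ℤ) : Integral ((s : ℚ) • x) := by
  intro c
  obtain ⟨a, ha⟩ := hx c
  exact ⟨s * a, by rw [Pi.smul_apply, ha, smul_eq_mul]; push_cast; rfl⟩

theorem int_mul {d : ℕ} (x : Fin d → ℚ) : ∃ N : ℕ, 0 < N ∧ Integral ((N : ℚ) • x) := by
  refine ⟨∏ c, (x c).den, Finset.prod_pos (fun c _ => (x c).den_pos), ?_⟩
  intro c
  obtain ⟨r, hr⟩ := Finset.dvd_prod_of_mem (fun c => (x c).den) (Finset.mem_univ c)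
  refine ⟨r * (x c).num, ?_⟩
  rw [Pi.smul_apply, smul_eq_mul, hr]
  push_cast
  have h := Rat.mul_den_eq_num (x c)
  rw [← h]
  ring

end MUL

theorem t_MUL : D_MUL := by
  intro d z z' hz hz' hx
  obtain ⟨hz1, x₁, hx₁, hzx₁⟩ := hz
  obtain ⟨hz'1, x₂, hx₂, hzx₂⟩ := hz'
  let H : AddSubgroup ℤ :=
    { carrier := {b | ∃ x, Integral x ∧ z x = 0 ∧ z' x = b}
      zero_mem' := ⟨0, fun c => ⟨0, by simp⟩, map_zero z, by rw [map_zero]; simp⟩
      add_mem' := by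
        rintro b b' ⟨x, h1, h2, h3⟩ ⟨x', h1', h2', h3'⟩
        exact ⟨x + x', MUL.int_add h1 h1', by rw [map_add, h2, h2', add_zero],
          by rw [map_add, h3, h3']; push_cast; rfl⟩
      neg_mem' := by
        rintro b ⟨x, h1, h2, h3⟩
        refine ⟨((-1 : ℤ) : ℚ) • x, MUL.int_smul h1 (-1), ?_, ?_⟩
        · rw [map_smul, h2, smul_zero]
        · rw [map_smul, h3, smul_eq_mul]; push_cast; ring }
  have hH : ∀ b : ℤ, b ∈ H ↔ ∃ x, Integral x ∧ z x = 0 ∧ z' x = b := fun b => Iff.rfl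
  obtain ⟨m₀, hm₀⟩ := Int.subgroup_cyclic H
  have hmem : ∀ b : ℤ, b ∈ H ↔ m₀ ∣ b := by
    intro b
    rw [hm₀, AddSubgroup.mem_closure_singleton]
    constructor
    · rintro ⟨k, hk⟩
      exact ⟨k, by rw [← hk, smul_eq_mul, mul_comm]⟩
    · rintro ⟨k, hk⟩
      exact ⟨k, by rw [hk, smul_eq_mul, mul_comm]⟩
  -- not zero
  have hm0 : m₀ ≠ 0 := by
    rintro rfl
    obtain ⟨x, hx0, hx1⟩ := hx
    obtain ⟨N, hN, hNx⟩ := MUL.int_mul x
    obtain ⟨b, hb⟩ := hz'1 _ hNx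
    have h1 : b ∈ H := (hH b).2 ⟨_, hNx, by rw [map_smul, hx0, smul_zero], hb⟩
    rw [hmem, zero_dvd_iff] at h1
    rw [h1, map_smul, smul_eq_mul] at hb
    have hN' : (N : ℚ) ≠ 0 := by exact_mod_cast hN.ne'
    have := mul_ne_zero hN' hx1
    apply this
    rw [hb]
    simp
  obtain ⟨e, he⟩ := hz'1 x₁ hx₁
  obtain ⟨a, ha⟩ := hz1 x₂ hx₂
  set m : ℤ := |m₀| with hm
  have hmpos : 0 < m := abs_pos.2 hm0
  have hmem' : ∀ b : ℤ, b ∈ H ↔ m ∣ b := by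
    intro b
    rw [hmem, hm, abs_dvd]
  have h1 : m ∣ 1 - a * e := by
    rw [← hmem', hH]
    refine ⟨x₂ + ((-a : ℤ) : ℚ) • x₁, MUL.int_add hx₂ (MUL.int_smul hx₁ _), ?_, ?_⟩
    · rw [map_add, map_smul, ha, hzx₁, smul_eq_mul]; push_cast; ring
    · rw [map_add, map_smul, he, hzx₂, smul_eq_mul]; push_cast; ring
  obtain ⟨y, hy, hzy, hz'y⟩ := (hH m).1 ((hmem' m).2 (dvd_refl m))
  refine ⟨(m : ℚ), by exact_mod_cast hmpos, ?_, ⟨y, hy, hzy, hz'y⟩, ?_, ?_⟩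
  · intro x hxI hzx
    obtain ⟨b, hb⟩ := hz'1 x hxI
    obtain ⟨k, hk⟩ := (hmem' b).1 ((hH b).2 ⟨x, hxI, hzx, hb⟩)
    exact ⟨k, by rw [hb, hk]; push_cast; rfl⟩
  · intro x hxI hz'x
    obtain ⟨s, hs⟩ := hz1 x hxI
    have h2 : m ∣ -(s * e) := by
      rw [← hmem', hH]
      refine ⟨x + ((-s : ℤ) : ℚ) • x₁, MUL.int_add hxI (MUL.int_smul hx₁ _), ?_, ?_⟩
      · rw [map_add, map_smul, hs, hzx₁, smul_eq_mul]; push_cast; ring
      · rw [map_add, map_smul, he, hz'x, smul_eq_mul]; push_cast; ring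
    have h3 : m ∣ s := by
      have h4 : s = s * (1 - a * e) - a * (-(s * e)) := by ring
      rw [h4]
      exact dvd_sub (Dvd.dvd.mul_left h1 s) (Dvd.dvd.mul_left h2 a)
    obtain ⟨k, hk⟩ := h3
    exact ⟨k, by rw [hs, hk]; push_cast; rfl⟩
  · refine ⟨((m : ℤ) : ℚ) • x₁ + ((-e : ℤ) : ℚ) • y,
      MUL.int_add (MUL.int_smul hx₁ _) (MUL.int_smul hy _), ?_, ?_⟩
    · rw [map_add, map_smul, map_smul, he, hz'y, smul_eq_mul, smul_eq_mul]; push_cast; ring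
    · rw [map_add, map_smul, map_smul, hzx₁, hzy, smul_eq_mul, smul_eq_mul]; push_cast; ring

end Pool.Agent.CB
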