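import Pool.Agent.CB.Stm4

set_option autoImplicit false

namespace Pool.Agent.CB

open Finset Module

theorem nor_aux {n : ℕ} {k : ℕ} {q : Fin n × Bool → Fin (n - 1) → ℚ}
    {z : Finset (Fin n) → (Fin (n - 1) → ℚ) →ₗ[ℚ] ℚ} {c : Finset (Fin n) → ℚ} (hF : Fu k q z c)
    (hK : ∀ S : Finset (Fin n), S.card = k → ∀ x, x ∈ lin q (E S) ↔ z S x = 0)
    {S T : Finset (Fin n)} (hS : S.card = k) (hT : T.card = k) {m : ℚ} (hm : 0 < m)
    (hA : ∀ x, Integral x → z S x = 0 → ∃ a : ℤ, z T x = m * a)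
    (hB : ∃ x, Integral x ∧ z S x = 0 ∧ z T x = m) :
    Normal q (E S ∩ E T) (E S) (m⁻¹ • z T) := by
  refine ⟨?_, ?_, ?_, ?_⟩
  · intro x hx
    have h1 : lin q (E S ∩ E T) ≤ lin q (E T) := by
      refine Submodule.span_mono ?_
      rintro y ⟨i, hi, j, hj, rfl⟩
      exact ⟨i, (mem_inter.1 hi).2, j, (mem_inter.1 hj).2, rfl⟩
    have h2 := (hK T hT x).1 (h1 hx)
    rw [LinearMap.smul_apply, h2, smul_zero]
  · intro i _ j hj
    have h1 := ((hF T hT).2 j).1 (mem_inter.1 hj).2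
    have h2 : 0 ≤ z T (q i) + c T := by
      by_cases hi : i ∈ E T
      · exact le_of_eq (((hF T hT).2 i).1 hi).symm
      · exact (((hF T hT).2 i).2 hi).le
    rw [LinearMap.smul_apply, map_sub, smul_eq_mul]
    exact mul_nonneg (inv_nonneg.2 hm.le) (by linarith)
  · intro x hx hi
    obtain ⟨a, ha⟩ := hA x hi ((hK S hS x).1 hx)
    refine ⟨a, ?_⟩
    rw [LinearMap.smul_apply, ha, smul_eq_mul, inv_mul_cancel_left₀ hm.ne']
  · obtain ⟨x, h1, h2, h3⟩ := hB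
    refine ⟨x, (hK S hS x).2 h2, h1, ?_⟩
    rw [LinearMap.smul_apply, h3, smul_eq_mul, inv_mul_cancel₀ hm.ne']

theorem t_NOR (h1 : D_KER) (h2 : D_MUL) (h3 : D_RDG) : D_NOR := by
  intro n k q z c hD hF F hface hdim
  have hK := h1 n k q z c hD hF
  obtain ⟨hR1, hR2⟩ := h3 n k q hD
  obtain ⟨S₀, T₀, hN, hFe⟩ := (hR1 F).1 ⟨hface, hdim⟩
  obtain ⟨j, hj⟩ := hface.1
  rw [hFe] at hj
  have hj1 := (mem_inter.1 hj).1
  have hj2 := (mem_inter.1 hj).2
  have hex : ∃ x, z S₀.1 x = 0 ∧ z T₀.1 x ≠ 0 := by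
    obtain ⟨x, hx, y, hy, hT⟩ := hN
    have hxT : x ∉ T₀.1 := by
      rw [hT, mem_insert, mem_erase]
      rintro (h | h)
      · exact hy (h ▸ hx)
      · exact h.1 rfl
    have hi1 : (x, true) ∈ E S₀.1 := by rw [mem_E]; simp [hx]
    have hi2 : (x, true) ∉ E T₀.1 := by rw [mem_E]; simp [hxT]
    refine ⟨q (x, true) - q j, ?_, ?_⟩
    · have e1 := ((hF S₀.1 S₀.2).2 (x, true)).1 hi1
      have e2 := ((hF S₀.1 S₀.2).2 j).1 hj1
      rw [map_sub]
      linarith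
    · have e1 := ((hF T₀.1 T₀.2).2 (x, true)).2 hi2
      have e2 := ((hF T₀.1 T₀.2).2 j).1 hj2
      rw [map_sub]
      intro h0
      linarith
  obtain ⟨m, hm, hA, hB, hA', hB'⟩ := h2 _ (z S₀.1) (z T₀.1) (hF S₀.1 S₀.2).1 (hF T₀.1 T₀.2).1 hex
  refine ⟨m, hm, fun S T hST hFST => ?_⟩
  have hsub := hR2 S₀ T₀
  have hS : S = S₀ ∨ S = T₀ := by
    refine (hsub S hN).1 ?_
    rw [← hFe, hFST]
    exact inter_subset_left
  have hT : T = S₀ ∨ T = T₀ := by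
    refine (hsub T hN).1 ?_
    rw [← hFe, hFST]
    exact inter_subset_right
  have hne : S ≠ T := by
    rintro rfl
    obtain ⟨x, hx, y, hy, hT⟩ := hST
    apply hy
    rw [hT]
    exact mem_insert_self _ _
  rw [hFST]
  rcases hS with rfl | rfl <;> rcases hT with rfl | rfl
  · exact absurd rfl hne
  · exact nor_aux hF hK S.2 T.2 hm hA hB
  · exact nor_aux hF hK S.2 T.2 hm hA' hB'
  · exact absurd rfl hne

end Pool.Agent.CB
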