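import Pool.Agent.CB.Stm4

/-!
# Piece D-RDG (helper72): the ridges
-/

set_option autoImplicit false

namespace Pool.Agent.CB

open Finset Module

namespace RDG

theorem mem_enc {n : ℕ} (A B : Finset (Fin n)) (m : Fin n) (ε : Bool) :
    (m, ε) ∈ enc A B ↔ (ε = false ∧ m ∈ A) ∨ (ε = true ∧ m ∈ B) := by
  simp [enc]

theorem inter_eq {n : ℕ} (S : Finset (Fin n)) (x y : Fin n) (hy : y ∉ S) :
    E S ∩ E (insert y (S.erase x)) = enc (insert y S)ᶜ (S.erase x) := by
  ext ⟨m, ε⟩
  rw [mem_inter, mem_E, mem_E, mem_enc]
  cases ε
  · simp only [Bool.false_eq_true, iff_false, true_and, false_and, or_false, mem_compl, mem_insert,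
      mem_erase]
    tauto
  · simp only [iff_true, Bool.true_eq_false, false_and, true_and, false_or, mem_insert, mem_erase]
    constructor
    · rintro ⟨h1, h2⟩
      refine ⟨?_, h1⟩
      rintro rfl
      rcases h2 with rfl | h2
      · exact hy h1
      · exact h2.1 rfl
    · rintro ⟨h1, h2⟩
      exact ⟨h2, Or.inr ⟨h1, h2⟩⟩

end RDG

theorem t_RDG (h : S_DDIM) : D_RDG := by
  intro n k q hq
  obtain ⟨d1, d2, d3, -⟩ := h n k q hq
  obtain ⟨hk, hkn, -, hF⟩ := hq
  refine ⟨fun F => ⟨?_, ?_⟩, ?_⟩
  · rintro ⟨hG, hd⟩
    rcases (hF F).1 hG with rfl | ⟨A, B, hAB, rfl⟩ | ⟨S, rfl⟩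
    · rw [d1] at hd
      omega
    · have h1 := d3 A B hAB
      obtain ⟨hdis, h2, h3, -⟩ := hAB
      have hA : A.card = n - k - 1 := by omega
      have hB : B.card = k - 1 := by omega
      have hU : (A ∪ B).card = n - 2 := by
        rw [card_union_of_disjoint hdis]
        omega
      have hc : ((A ∪ B)ᶜ).card = 2 := by
        rw [card_compl, hU, Fintype.card_fin]
        omega
      obtain ⟨x, y, hxy, hcxy⟩ := card_eq_two.1 hc
      have hm : ∀ m, m ∉ A → m ∉ B → m = x ∨ m = y := by
        intro m h1 h2
        have : m ∈ (A ∪ B)ᶜ := by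
          rw [mem_compl, mem_union]
          tauto
        rw [hcxy] at this
        simpa using this
      have hx : x ∉ A ∧ x ∉ B := by
        have : x ∈ (A ∪ B)ᶜ := by
          rw [hcxy]
          simp
        rw [mem_compl, mem_union] at this
        tauto
      have hy : y ∉ A ∧ y ∉ B := by
        have : y ∈ (A ∪ B)ᶜ := by
          rw [hcxy]
          simp
        rw [mem_compl, mem_union] at this
        tauto
      have hxS : y ∉ insert x B := by
        rw [mem_insert]
        rintro (h | h)
        · exact hxy h.symm
        · exact hy.2 h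
      have he : insert y B = insert y ((insert x B).erase x) := by
        rw [erase_insert hx.2]
      refine ⟨⟨insert x B, ?_⟩, ⟨insert y B, ?_⟩, ⟨x, mem_insert_self _ _, y, hxS, he⟩, ?_⟩
      · rw [card_insert_of_notMem hx.2]
        omega
      · rw [card_insert_of_notMem hy.2]
        omega
      · show enc A B = E (insert x B) ∩ E (insert y B)
        rw [he, RDG.inter_eq _ _ _ hxS, erase_insert hx.2]
        have : (insert y (insert x B))ᶜ = A := by
          ext m
          rw [mem_compl, mem_insert, mem_insert]
          constructor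
          · intro h4
            by_contra h5
            have h6 : m ∉ B := fun h => h4 (Or.inr (Or.inr h))
            rcases hm m h5 h6 with h7 | h7
            · exact h4 (Or.inr (Or.inl h7))
            · exact h4 (Or.inl h7)
          · rintro h4 (rfl | rfl | h5)
            · exact hy.1 h4
            · exact hx.1 h4
            · exact (disjoint_left.1 hdis) h4 h5
        rw [this]
    · rw [d2 S] at hd
      omega
  · rintro ⟨S, T, ⟨x, hx, y, hy, hT⟩, rfl⟩
    rw [hT, RDG.inter_eq _ _ _ hy]
    have hS := S.2
    have hn : (insert y S.1).card = k + 1 := by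
      rw [card_insert_of_notMem hy, hS]
    have c1 : ((insert y S.1)ᶜ).card = n - (k + 1) := by
      rw [card_compl, hn, Fintype.card_fin]
    have c2 : (S.1.erase x).card = k - 1 := by
      rw [card_erase_of_mem hx, hS]
    have hadm : Adm k (insert y S.1)ᶜ (S.1.erase x) := by
      refine ⟨?_, ?_, ?_, ?_⟩
      · rw [disjoint_left]
        intro m h1 h2
        rw [mem_compl, mem_insert] at h1
        exact h1 (Or.inr (mem_of_mem_erase h2))
      · rw [c1]
        omega
      · rw [c2]
        omega
      · have : (S.1.erase x).Nonempty := by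
          rw [← card_pos, c2]
          omega
        obtain ⟨m, hm⟩ := this
        exact ⟨m, mem_union_right _ hm⟩
    refine ⟨(hF _).2 (Or.inr (Or.inl ⟨_, _, hadm, rfl⟩)), ?_⟩
    have h1 := d3 _ _ hadm
    rw [c1, c2] at h1
    omega
  · rintro S T R ⟨x, hx, y, hy, hT⟩
    constructor
    · intro hsub
      have h1 : S.1.erase x ⊆ R.1 := by
        intro m hm
        have h2 : (m, true) ∈ E S.1 ∩ E T.1 := by
          rw [hT, RDG.inter_eq _ _ _ hy, RDG.mem_enc]
          exact Or.inr ⟨rfl, hm⟩
        have h3 := hsub h2
        rw [mem_E] at h3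
        exact h3.2 rfl
      have h4 : R.1 ⊆ insert y S.1 := by
        intro m hm
        by_contra h5
        have h2 : (m, false) ∈ E S.1 ∩ E T.1 := by
          rw [hT, RDG.inter_eq _ _ _ hy, RDG.mem_enc]
          exact Or.inl ⟨rfl, mem_compl.2 h5⟩
        have h3 := hsub h2
        rw [mem_E] at h3
        exact absurd (h3.1 hm) (by simp)
      by_cases hxR : x ∈ R.1
      · left
        apply Subtype.ext
        symm
        apply eq_of_subset_of_card_le
        · intro m hm
          by_cases hmx : m = x
          · rw [hmx]
            exact hxR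
          · exact h1 (mem_erase.2 ⟨hmx, hm⟩)
        · rw [R.2, S.2]
      · right
        apply Subtype.ext
        apply eq_of_subset_of_card_le
        · intro m hm
          rw [hT, mem_insert, mem_erase]
          rcases mem_insert.1 (h4 hm) with h5 | h5
          · exact Or.inl h5
          · refine Or.inr ⟨?_, h5⟩
            rintro rfl
            exact hxR hm
        · rw [R.2, T.2]
    · rintro (rfl | rfl)
      · exact inter_subset_left
      · exact inter_subset_right

end Pool.Agent.CB
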