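import Pool.Agent.CB.Stm4
/-!
# Project CB, piece CB2-SPZ (helper41)
-/
set_option autoImplicit false
namespace Pool.Agent.CB
open Finset Module

theorem t_SPZ (h : R_SPF) : D_SPZ := by
  intro n k q z c hDF hFu
  obtain ⟨hk, hn, -, -⟩ := hDF
  have hsg := sg_of_fu k n q z c hFu
  have hfr : finrank ℚ (((Fin (n - 1) → ℚ) →ₗ[ℚ] ℚ) × ℚ) = Fintype.card (Fin n) := by
    rw [Module.finrank_prod, Module.finrank_linearMap, Module.finrank_fin_fun, Module.finrank_self,
      Fintype.card_fin]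
    omega
  have h1 : ∀ y : ((Fin (n - 1) → ℚ) →ₗ[ℚ] ℚ) × ℚ,
      y ∈ Submodule.span ℚ {x | ∃ S : Finset (Fin n), S.card = k ∧ x = (z S, c S)} := by
    intro y
    have h2 := h (Fin n) (((Fin (n - 1) → ℚ) →ₗ[ℚ] ℚ) × ℚ) k (fun S => (z S, c S))
      (fun m => ev (q (m, false))) (fun m => ev (q (m, true))) hfr hsg ∅ ∅ (Finset.disjoint_empty_left _)
      (by rw [Finset.card_empty, Fintype.card_fin]; omega) (by rw [Finset.card_empty]; omega) y
      (fun i hi => absurd hi (Finset.notMem_empty i)) (fun i hi => absurd hi (Finset.notMem_empty i))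
    refine Submodule.span_mono ?_ h2
    rintro x ⟨S, hS, -, -, hx⟩
    exact ⟨S, hS, hx⟩
  refine ⟨h1, ?_⟩
  intro x hx
  let φ : ((Fin (n - 1) → ℚ) →ₗ[ℚ] ℚ) × ℚ →ₗ[ℚ] ℚ :=
    (LinearMap.applyₗ x).comp (LinearMap.fst ℚ _ _)
  have hφ : ∀ y, y ∈ Submodule.span ℚ {x | ∃ S : Finset (Fin n), S.card = k ∧ x = (z S, c S)} →
      φ y = 0 := by
    intro y hy
    have hle : Submodule.span ℚ {x | ∃ S : Finset (Fin n), S.card = k ∧ x = (z S, c S)} ≤
        LinearMap.ker φ := by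
      rw [Submodule.span_le]
      rintro w ⟨S, hS, rfl⟩
      exact LinearMap.mem_ker.2 (hx S hS)
    exact LinearMap.mem_ker.1 (hle hy)
  funext i
  exact hφ (LinearMap.proj i, 0) (h1 _)

end Pool.Agent.CB
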