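import Pool.Agent.CB.Stm4

/-!
Project CB (helper97), piece SYM (helper95): symmetric functions supported on a symmetric irreflexive relation.
-/

set_option autoImplicit false

namespace Pool.Agent.CB

open Finset Module

namespace SYM

/-- the symmetric functions which are supported on `N` -/
def Y (X : Type) (N : X → X → Prop) : Submodule ℚ (X → X → ℚ) where
  carrier := {w | (∀ S T, w S T = w T S) ∧ ∀ S T, ¬ N S T → w S T = 0}
  add_mem' := by
    rintro a b ⟨ha, ha'⟩ ⟨hb, hb'⟩
    refine ⟨fun S T => ?_, fun S T h => ?_⟩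
    · show a S T + b S T = a T S + b T S
      rw [ha, hb]
    · show a S T + b S T = 0
      rw [ha' S T h, hb' S T h, add_zero]
  zero_mem' := ⟨fun _ _ => rfl, fun _ _ _ => rfl⟩
  smul_mem' := by
    rintro c a ⟨ha, ha'⟩
    refine ⟨fun S T => ?_, fun S T h => ?_⟩
    · show c * a S T = c * a T S
      rw [ha]
    · show c * a S T = 0
      rw [ha' S T h, mul_zero]

end SYM

open SYM in
theorem t_SYM : L_SYM := by
  classical
  intro X _ N hs hi
  have e := Fintype.equivFin X
  refine ⟨Y X N, fun w => Iff.rfl, ?_⟩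
  let P : Type := {p : X × X // N p.1 p.2 ∧ e p.1 < e p.2}
  let φ : Y X N →ₗ[ℚ] (P → ℚ) :=
    { toFun := fun w p => w.1 p.1.1 p.1.2
      map_add' := fun _ _ => rfl
      map_smul' := fun _ _ => rfl }
  have hbij : Function.Bijective φ := by
    constructor
    · rw [← LinearMap.ker_eq_bot, LinearMap.ker_eq_bot']
      intro w hw
      apply Subtype.ext
      funext S T
      show w.1 S T = 0
      by_cases hN : N S T
      · rcases lt_trichotomy (e S) (e T) with h | h | h
        · exact congrFun hw ⟨(S, T), hN, h⟩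
        · exact absurd hN (by rw [e.injective h]; exact hi T)
        · rw [w.2.1 S T]
          exact congrFun hw ⟨(T, S), hs _ _ hN, h⟩
      · exact w.2.2 S T hN
    · intro g
      refine ⟨⟨fun S T => if h : N S T ∧ e S < e T then g ⟨(S, T), h⟩ else
        if h' : N T S ∧ e T < e S then g ⟨(T, S), h'⟩ else 0, fun S T => ?_, fun S T h => ?_⟩, ?_⟩
      · by_cases h1 : N S T ∧ e S < e T
        · have h2 : ¬ (N T S ∧ e T < e S) := fun h => lt_asymm h.2 h1.2
          simp only [h1, h2, dif_pos, dif_neg, not_false_eq_true, and_self]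
        · by_cases h2 : N T S ∧ e T < e S
          · simp only [h1, h2, dif_pos, dif_neg, not_false_eq_true, and_self]
          · simp only [h1, h2, dif_neg, not_false_eq_true]
      · have h1 : ¬ (N S T ∧ e S < e T) := fun h' => h h'.1
        have h2 : ¬ (N T S ∧ e T < e S) := fun h' => h (hs _ _ h'.1)
        simp only [h1, h2, dif_neg, not_false_eq_true]
      · funext p
        show (if h : N p.1.1 p.1.2 ∧ e p.1.1 < e p.1.2 then g ⟨(p.1.1, p.1.2), h⟩ else _) = g p
        rw [dif_pos p.2]
  have hfin : finrank ℚ (Y X N) = Fintype.card P := by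
    rw [(LinearEquiv.ofBijective φ hbij).finrank_eq]
    exact Module.finrank_fintype_fun_eq_card ℚ
  have hP : Fintype.card P = (univ.filter fun p : X × X => N p.1 p.2 ∧ e p.1 < e p.2).card :=
    Fintype.card_subtype _
  have h1 : (univ.filter fun p : X × X => N p.1 p.2).card =
      (univ.filter fun p : X × X => N p.1 p.2 ∧ e p.1 < e p.2).card +
        (univ.filter fun p : X × X => N p.1 p.2 ∧ ¬ e p.1 < e p.2).card := by
    rw [← filter_filter, ← filter_filter]
    exact (card_filter_add_card_filter_not _).symm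
  have h2 : (univ.filter fun p : X × X => N p.1 p.2 ∧ ¬ e p.1 < e p.2).card =
      (univ.filter fun p : X × X => N p.1 p.2 ∧ e p.1 < e p.2).card := by
    refine card_nbij' Prod.swap Prod.swap ?_ ?_ ?_ ?_
    · rintro ⟨S, T⟩ h
      simp only [coe_filter, mem_univ, true_and, Set.mem_ofPred_eq, Prod.fst_swap, Prod.snd_swap] at h ⊢
      refine ⟨hs _ _ h.1, lt_of_le_of_ne (not_lt.1 h.2) fun he => ?_⟩
      have := e.injective he
      rw [this] at h
      exact hi _ h.1
    · rintro ⟨S, T⟩ h
      simp only [coe_filter, mem_univ, true_and, Set.mem_ofPred_eq, Prod.fst_swap, Prod.snd_swap] at h ⊢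
      exact ⟨hs _ _ h.1, not_lt.2 h.2.le⟩
    · intro p _
      exact Prod.swap_swap p
    · intro p _
      exact Prod.swap_swap p
  rw [hfin, hP]
  have h3 : (univ.filter fun p : X × X => N p.1 p.2).card =
      2 * (univ.filter fun p : X × X => N p.1 p.2 ∧ e p.1 < e p.2).card := by
    rw [h1, h2]
    ring
  rw [← h3]

end Pool.Agent.CB
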