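import Pool.Agent.CB.Stm4
set_option autoImplicit false
namespace Pool.Agent.CB
open Finset Module
namespace WTR99

theorem nb_symm' {ι : Type} [DecidableEq ι] {S T : Finset ι} (h : Nb S T) : Nb T S := by
  obtain ⟨x, hx, y, hy, rfl⟩ := h
  have hxy : x ≠ y := fun h => hy (h ▸ hx)
  refine ⟨y, mem_insert_self _ _, x, ?_, ?_⟩
  · simp [hxy]
  · rw [erase_insert (by simp [hy])]
    exact (insert_erase hx).symm

/-- every rational vector has an integral positive multiple -/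
theorem exists_mul {d : ℕ} (x : Fin d → ℚ) : ∃ N : ℚ, N ≠ 0 ∧ Integral (N • x) := by
  classical
  refine ⟨((∏ i, (x i).den : ℕ) : ℚ), ?_, fun i => ?_⟩
  · exact_mod_cast (Finset.prod_pos fun i _ => (x i).pos).ne'
  · rw [← Finset.mul_prod_erase univ _ (mem_univ i)]
    refine ⟨(∏ j ∈ univ.erase i, (x j).den : ℕ) * (x i).num, ?_⟩
    have h : (x i) * ((x i).den : ℚ) = (x i).num := Rat.mul_den_eq_num _
    simp only [Pi.smul_apply, smul_eq_mul]
    push_cast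
    rw [← h]
    ring

end WTR99

open WTR99 in
theorem t_WTR (h1 : S_DWTS) (h2 : D_NOR) (h3 : D_RDG) (h4 : D_FCT) (h5 : D_KER) (h6 : S_DEXN) : D_WTR := by
  classical
  intro n k q z c hq hz Y hY
  have hk2 : 2 ≤ k := hq.1
  have hkn : k + 2 ≤ n := hq.2.1
  obtain ⟨hf1, hf2, hf3⟩ := h4 n k q hq
  obtain ⟨hr1, hr2⟩ := h3 n k q hq
  have hker := h5 n k q z c hq hz
  obtain ⟨W, hW, hcb⟩ := h1 (Fin n × Bool) (n - 1) q (n - 3)
  rw [hcb]
  have hEf : ∀ S : Sub k n, IsFace q (E S.1) ∧ dim q (E S.1) = n - 2 := fun S => (hf1 _).2 ⟨S, rfl⟩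
  have hRf : ∀ S T : Sub k n, Nb S.1 T.1 → IsFace q (E S.1 ∩ E T.1) ∧ dim q (E S.1 ∩ E T.1) = n - 3 :=
    fun S T h => (hr1 _).2 ⟨S, T, h, rfl⟩
  -- the multiplicities
  have hm : ∀ F : Finset (Fin n × Bool), ∃ m : ℚ, IsFace q F ∧ dim q F = n - 3 → 0 < m ∧ ∀ S T : Sub k n, Nb S.1 T.1 →
      F = E S.1 ∩ E T.1 → Normal q F (E S.1) (m⁻¹ • z T.1) := by
    intro F
    by_cases h : IsFace q F ∧ dim q F = n - 3
    · obtain ⟨m, hm⟩ := h2 n k q z c hq hz F h.1 h.2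
      exact ⟨m, fun _ => hm⟩
    · exact ⟨0, fun h' => absurd h' h⟩
  choose m hm using hm
  -- two representations of a ridge
  have hrep : ∀ S T S' T' : Sub k n, Nb S.1 T.1 → Nb S'.1 T'.1 → E S.1 ∩ E T.1 = E S'.1 ∩ E T'.1 →
      (S' = S ∧ T' = T) ∨ (S' = T ∧ T' = S) := by
    intro S T S' T' h h' he
    have a1 := (hr2 S T S' h).1 (he ▸ inter_subset_left)
    have a2 := (hr2 S T T' h).1 (he ▸ inter_subset_right)
    have hne : S' ≠ T' := by
      rintro rfl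
      obtain ⟨x, hx, y, hy, h''⟩ := h'
      exact hy (h'' ▸ mem_insert_self _ _)
    rcases a1 with rfl | rfl <;> rcases a2 with rfl | rfl
    · exact absurd rfl hne
    · exact Or.inl ⟨rfl, rfl⟩
    · exact Or.inr ⟨rfl, rfl⟩
    · exact absurd rfl hne
  have hrep' : ∀ S T T' : Sub k n, Nb S.1 T.1 → Nb S.1 T'.1 → E S.1 ∩ E T.1 = E S.1 ∩ E T'.1 → T' = T := by
    intro S T T' h h' he
    rcases hrep S T S T' h h' he with ⟨-, h⟩ | ⟨h7, h8⟩
    · exact h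
    · rw [h8, ← h7]
  -- the relation of `E S` and `u`
  let R : Sub k n → (Fin (n - 1) → ℚ) → (FaceOf q (n - 3) →₀ ℚ) := fun S u =>
    ∑ T : Sub k n, if h : Nb S.1 T.1 then
      Finsupp.single (⟨E S.1 ∩ E T.1, hRf S T h⟩ : FaceOf q (n - 3)) ((m (E S.1 ∩ E T.1))⁻¹ * z T.1 u) else 0
  have hR1 : ∀ (S T : Sub k n) u (h : Nb S.1 T.1), R S u ⟨E S.1 ∩ E T.1, hRf S T h⟩ =
      (m (E S.1 ∩ E T.1))⁻¹ * z T.1 u := by
    intro S T u h
    show (∑ T' : Sub k n, if h' : Nb S.1 T'.1 then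
      Finsupp.single (⟨E S.1 ∩ E T'.1, hRf S T' h'⟩ : FaceOf q (n - 3)) ((m (E S.1 ∩ E T'.1))⁻¹ * z T'.1 u) else 0)
        ⟨E S.1 ∩ E T.1, hRf S T h⟩ = _
    rw [Finsupp.finsetSum_apply, Finset.sum_eq_single T]
    · rw [dif_pos h, Finsupp.single_eq_same]
    · intro T' _ hT'
      by_cases h' : Nb S.1 T'.1
      · rw [dif_pos h', Finsupp.single_apply, if_neg]
        intro h7
        exact hT' (hrep' S T T' h h' (congrArg Subtype.val h7).symm)
      · rw [dif_neg h']; rfl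
    · intro h'; exact absurd (mem_univ _) h'
  have hR2 : ∀ (S : Sub k n) u (F : FaceOf q (n - 3)), ¬ F.1 ⊆ E S.1 → R S u F = 0 := by
    intro S u F hF
    show (∑ T' : Sub k n, if h' : Nb S.1 T'.1 then
      Finsupp.single (⟨E S.1 ∩ E T'.1, hRf S T' h'⟩ : FaceOf q (n - 3)) ((m (E S.1 ∩ E T'.1))⁻¹ * z T'.1 u) else 0)
        F = _
    rw [Finsupp.finsetSum_apply]
    refine Finset.sum_eq_zero fun T' _ => ?_
    by_cases h' : Nb S.1 T'.1
    · rw [dif_pos h', Finsupp.single_apply, if_neg]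
      rintro rfl
      exact hF inter_subset_left
    · rw [dif_neg h']; rfl
  -- the ridges in `E S`
  have hsub : ∀ (S : Sub k n) (F : FaceOf q (n - 3)), F.1 ⊆ E S.1 → ∃ T : Sub k n, Nb S.1 T.1 ∧ F.1 = E S.1 ∩ E T.1 := by
    intro S F hF
    obtain ⟨A, B, hAB, hFe⟩ := (hr1 F.1).1 F.2
    rw [hFe] at hF
    rcases (hr2 A B S hAB).1 hF with rfl | rfl
    · exact ⟨B, hAB, hFe⟩
    · exact ⟨A, nb_symm' hAB, by rw [hFe, inter_comm]⟩
  have hRrel : ∀ (S : Sub k n) u, Integral u → z S.1 u = 0 → IsRelation q (n - 3) (R S u) := by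
    intro S u hu hzu
    refine ⟨E S.1, (hEf S).1, by rw [(hEf S).2]; omega, u, (hker S.1 S.2 u).2 hzu, hu, fun F => ⟨hR2 S u F, fun hF => ?_⟩⟩
    obtain ⟨T, hT, hFe⟩ := hsub S F hF
    have hF' : F = ⟨E S.1 ∩ E T.1, hRf S T hT⟩ := Subtype.ext hFe
    refine ⟨(m F.1)⁻¹ • z T.1, (hm F.1 F.2).2 S T hT hFe, ?_⟩
    subst hF'
    rw [hR1 S T u hT]
    rfl
  have hrelR : ∀ r, IsRelation q (n - 3) r → ∃ (S : Sub k n) (u : _), z S.1 u = 0 ∧ Integral u ∧ r = R S u := by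
    rintro r ⟨G, hG, hGd, u, hu, hui, hr⟩
    obtain ⟨S, rfl⟩ := (hf1 G).1 ⟨hG, by omega⟩
    refine ⟨S, u, (hker S.1 S.2 u).1 hu, hui, Finsupp.ext fun F => ?_⟩
    by_cases hF : F.1 ⊆ E S.1
    · obtain ⟨T, hT, hFe⟩ := hsub S F hF
      have hF' : F = ⟨E S.1 ∩ E T.1, hRf S T hT⟩ := Subtype.ext hFe
      obtain ⟨ν, hν, hrν⟩ := (hr F).2 hF
      have hu2 := (h6 _ _ q F.1 (E S.1) F.2.1 (hEf S).1 hF (by rw [F.2.2, (hEf S).2]; omega)).2.1 ν _ hν
        ((hm F.1 F.2).2 S T hT hFe) u hu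
      rw [hrν, hu2]
      subst hF'
      rw [hR1 S T u hT]
      rfl
    · rw [(hr F).1 hF, hR2 S u F hF]
  -- the map
  let Φ : (FaceOf q (n - 3) → ℚ) →ₗ[ℚ] (Sub k n → Sub k n → ℚ) :=
    { toFun := fun w S T => if h : Nb S.1 T.1 then (m (E S.1 ∩ E T.1))⁻¹ * w ⟨E S.1 ∩ E T.1, hRf S T h⟩ else 0
      map_add' := fun w w' => by
        funext S T
        by_cases h : Nb S.1 T.1
        · simp [h, mul_add]
        · simp [h]
      map_smul' := fun a w => by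
        funext S T
        by_cases h : Nb S.1 T.1
        · simp [h]; ring
        · simp [h] }
  have hΦ1 : ∀ w (S T : Sub k n) (h : Nb S.1 T.1), Φ w S T = (m (E S.1 ∩ E T.1))⁻¹ * w ⟨E S.1 ∩ E T.1, hRf S T h⟩ :=
    fun w S T h => dif_pos h
  have hΦ0 : ∀ w (S T : Sub k n), ¬ Nb S.1 T.1 → Φ w S T = 0 := fun w S T h => dif_neg h
  have hsum : ∀ (w : FaceOf q (n - 3) → ℚ) (S : Sub k n) u, (R S u).sum (fun F a => a * w F) =
      ∑ T : Sub k n, Φ w S T * z T.1 u := by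
    intro w S u
    have h7 : ∀ r : FaceOf q (n - 3) →₀ ℚ, r.sum (fun F a => a * w F) = Finsupp.linearCombination ℚ w r := fun r => rfl
    rw [h7]
    show Finsupp.linearCombination ℚ w (∑ T' : Sub k n, if h' : Nb S.1 T'.1 then
      Finsupp.single (⟨E S.1 ∩ E T'.1, hRf S T' h'⟩ : FaceOf q (n - 3)) ((m (E S.1 ∩ E T'.1))⁻¹ * z T'.1 u) else 0) = _
    rw [map_sum]
    refine Finset.sum_congr rfl fun T _ => ?_
    by_cases h : Nb S.1 T.1
    · rw [dif_pos h, Finsupp.linearCombination_single, hΦ1 w S T h, smul_eq_mul]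
      ring
    · rw [dif_neg h, map_zero, hΦ0 w S T h, zero_mul]
  have hWY : ∀ w, w ∈ W ↔ Φ w ∈ Y := by
    intro w
    rw [hW, hY]
    constructor
    · intro hw
      refine ⟨fun S T => ?_, hΦ0 w, fun S x hx => ?_⟩
      · by_cases h : Nb S.1 T.1
        · have h' := nb_symm' h
          rw [hΦ1 w S T h, hΦ1 w T S h']
          have h8 : (⟨E S.1 ∩ E T.1, hRf S T h⟩ : FaceOf q (n - 3)) = ⟨E T.1 ∩ E S.1, hRf T S h'⟩ :=
            Subtype.ext (inter_comm _ _)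
          rw [h8, inter_comm (E S.1)]
        · rw [hΦ0 w S T h, hΦ0 w T S fun h' => h (nb_symm' h')]
      · obtain ⟨N, hN, hNi⟩ := exists_mul x
        have h8 := hw (R S (N • x)) (hRrel S _ hNi (by rw [map_smul, hx, smul_zero]))
        rw [hsum] at h8
        have h9 : N * ∑ T : Sub k n, Φ w S T * z T.1 x = 0 := by
          rw [← h8, Finset.mul_sum]
          refine Finset.sum_congr rfl fun T _ => ?_
          rw [map_smul, smul_eq_mul]; ring
        exact (mul_eq_zero.1 h9).resolve_left hN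
    · rintro ⟨-, -, h⟩ r hr
      obtain ⟨S, u, hu, -, rfl⟩ := hrelR r hr
      rw [hsum]
      exact h S u hu
  have hmpos : ∀ S T : Sub k n, Nb S.1 T.1 → m (E S.1 ∩ E T.1) ≠ 0 := fun S T h => (hm _ (hRf S T h)).1.ne'
  have hinj : Function.Injective Φ := by
    rw [← LinearMap.ker_eq_bot, LinearMap.ker_eq_bot']
    intro w hw
    funext F
    obtain ⟨S, T, hST, hF⟩ := (hr1 F.1).1 F.2
    have h8 := congrFun (congrFun hw S) T
    rw [hΦ1 w S T hST] at h8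
    have hF' : F = ⟨E S.1 ∩ E T.1, hRf S T hST⟩ := Subtype.ext hF
    rw [hF']
    exact (mul_eq_zero.1 h8).resolve_left (inv_ne_zero (hmpos S T hST))
  have hmap : W.map Φ = Y := by
    apply le_antisymm
    · rintro _ ⟨w, hw, rfl⟩
      exact (hWY w).1 hw
    · intro y hy
      have hy' := (hY y).1 hy
      have hch : ∀ F : FaceOf q (n - 3), ∃ a : ℚ, ∀ S T : Sub k n, Nb S.1 T.1 → F.1 = E S.1 ∩ E T.1 → a = m F.1 * y S T := by
        intro F
        obtain ⟨S, T, hST, hF⟩ := (hr1 F.1).1 F.2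
        refine ⟨m F.1 * y S T, fun S' T' hST' hF' => ?_⟩
        rcases hrep S T S' T' hST hST' (hF ▸ hF') with ⟨rfl, rfl⟩ | ⟨rfl, rfl⟩
        · rfl
        · rw [hy'.1]
      choose w hw using hch
      have hΦw : Φ w = y := by
        funext S T
        by_cases h : Nb S.1 T.1
        · rw [hΦ1 w S T h, hw ⟨E S.1 ∩ E T.1, hRf S T h⟩ S T h rfl, inv_mul_cancel_left₀ (hmpos S T h)]
        · rw [hΦ0 w S T h, hy'.2.1 S T h]
      exact ⟨w, (hWY w).2 (hΦw ▸ hy), hΦw⟩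
  rw [← hmap]
  exact (LinearEquiv.finrank_eq (Submodule.equivMapOfInjective Φ hinj W))

end Pool.Agent.CB
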