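import Pool.Agent.CB.Stm4

set_option autoImplicit false

namespace Pool.Agent.CB

open Finset Module

open Classical in
theorem NBC.one {n k : ℕ} (S : Sub k n) :
    (univ.filter fun T : Sub k n => Nb S.1 T.1).card = k * (n - k) := by
  have h1 : (S.1 ×ˢ (S.1)ᶜ : Finset (Fin n × Fin n)).card = k * (n - k) := by
    rw [Finset.card_product, Finset.card_compl, S.2, Fintype.card_fin]
  rw [← h1]
  symm
  refine Finset.card_bij (fun p hp => (⟨insert p.2 (S.1.erase p.1), ?_⟩ : Sub k n)) ?_ ?_ ?_
  · rw [Finset.mem_product, Finset.mem_compl] at hp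
    rw [Finset.card_insert_of_notMem fun h => hp.2 (Finset.mem_of_mem_erase h),
      Finset.card_erase_of_mem hp.1]
    have : 0 < S.1.card := Finset.card_pos.2 ⟨_, hp.1⟩
    have h2 := S.2
    omega
  · intro p hp
    rw [Finset.mem_product, Finset.mem_compl] at hp
    rw [Finset.mem_filter]
    exact ⟨Finset.mem_univ _, p.1, hp.1, p.2, hp.2, rfl⟩
  · rintro ⟨x, y⟩ hp ⟨x', y'⟩ hp' h
    rw [Finset.mem_product, Finset.mem_compl] at hp hp'
    have h3 : insert y (S.1.erase x) = insert y' (S.1.erase x') := congrArg Subtype.val h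
    have e1 : y = y' := by
      have : y ∈ insert y' (S.1.erase x') := h3 ▸ Finset.mem_insert_self _ _
      rcases Finset.mem_insert.1 this with h4 | h4
      · exact h4
      · exact absurd (Finset.mem_of_mem_erase h4) hp.2
    have e2 : x = x' := by
      by_contra hne
      have : x ∈ insert y' (S.1.erase x') :=
        Finset.mem_insert_of_mem (Finset.mem_erase.2 ⟨hne, hp.1⟩)
      rw [← h3] at this
      rcases Finset.mem_insert.1 this with h4 | h4
      · exact hp.2 (h4 ▸ hp.1)
      · exact (Finset.mem_erase.1 h4).1 rfl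
    rw [e1, e2]
  · intro T hT
    obtain ⟨x, hx, y, hy, h⟩ := (Finset.mem_filter.1 hT).2
    exact ⟨(x, y), Finset.mem_product.2 ⟨hx, Finset.mem_compl.2 hy⟩, Subtype.ext h.symm⟩

open Classical in
theorem t_NBC : D_NBC := by
  intro n k
  rw [Finset.card_filter, Fintype.sum_prod_type]
  have h : ∀ S : Sub k n, (∑ T : Sub k n, if Nb (S, T).1.1 (S, T).2.1 then 1 else 0) = k * (n - k) := by
    intro S
    rw [← NBC.one S, Finset.card_filter]
  have hc : Fintype.card (Sub k n) = n.choose k :=
    (Fintype.card_finset_len k).trans (by rw [Fintype.card_fin])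
  rw [Finset.sum_congr rfl fun S _ => h S, Finset.sum_const, smul_eq_mul, Finset.card_univ, hc]

end Pool.Agent.CB
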